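import Pool.Agent.TH280.LS.K5
set_option autoImplicit false

/-! # Functions which are regular at one scale: a weighted bound of the Fourier transform -/

open MeasureTheory Set Filter
open scoped ENNReal FourierTransform RealInnerProductSpace Topology

namespace Pool.Agent.Y507.LS

open Pool.Agent.TH280.LS

/-- regular functions at the scale `a` with amplitude `M` -/
def Atom (m : ℕ) (β γ : ℝ) (a : Fin m → ℝ) (M : ℝ) (g : (Fin m → ℝ) → ℂ) : Prop :=
  Integrable g ∧ ∫⁻ y, ‖g y‖ₑ ≤ ENNReal.ofReal (M * ∏ i, a i) ∧ ∀ (i : Fin m) (h : ℝ),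
    ∫⁻ y, ‖g (y + Pi.single i h) - g y‖ₑ ≤
      ENNReal.ofReal (M * (∏ i, a i) * (|h| / a i) ^ β) ∧
    ∫⁻ y, ‖g (y + Pi.single i h) - g y‖ₑ ^ 2 ≤
      ENNReal.ofReal (M ^ 2 * (∏ i, a i) * (|h| / a i) ^ γ)

lemma ftm_shift {m : ℕ} (g : (Fin m → ℝ) → ℂ) (i : Fin m) (h : ℝ) (η : Fin m → ℝ) :
    ftm m (fun y => g (y + Pi.single i h)) η = e (h * η i) * ftm m g η := by
  unfold ftm
  have h1 := integral_add_right_eq_self (μ := (volume : Measure (Fin m → ℝ)))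
    (fun y : Fin m → ℝ => e (-(∑ j, y j * η j)) * g y) (Pi.single i h)
  rw [← h1, ← integral_const_mul]
  refine integral_congr_ae (Eventually.of_forall fun y => ?_)
  change e (-∑ j, y j * η j) * g (y + Pi.single i h) =
    e (h * η i) * (e (-∑ j, (y + (Pi.single i h : Fin m → ℝ)) j * η j) * g (y + Pi.single i h))
  rw [← mul_assoc, ← e_add]
  congr 2
  have h2 : ∑ j, (y + (Pi.single i h : Fin m → ℝ)) j * η j = ∑ j, y j * η j + h * η i := by
    simp only [Pi.add_apply, add_mul, Finset.sum_add_distrib]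
    congr 1
    rw [Finset.sum_eq_single i]
    · simp
    · intro b _ hb
      simp [Pi.single_eq_of_ne hb]
    · simp
  rw [h2]
  ring

lemma int_shift {m : ℕ} {g : (Fin m → ℝ) → ℂ} (hg : Integrable g) (i : Fin m) (h : ℝ) :
    Integrable (fun y : Fin m → ℝ => g (y + Pi.single i h)) :=
  hg.comp_add_right _

lemma integrable_char {m : ℕ} {g : (Fin m → ℝ) → ℂ} (hg : Integrable g) (η : Fin m → ℝ) :
    Integrable (fun y : Fin m → ℝ => e (-(∑ j, y j * η j)) * g y) := by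
  refine hg.bdd_mul (c := 1) ?_ ?_
  · exact (continuous_e.comp (by fun_prop)).aestronglyMeasurable
  · exact Eventually.of_forall fun y => (norm_e _).le

lemma ftm_diff {m : ℕ} {g : (Fin m → ℝ) → ℂ} (hg : Integrable g) (i : Fin m) (h : ℝ)
    (η : Fin m → ℝ) :
    ftm m (fun y => g (y + Pi.single i h) - g y) η = (e (h * η i) - 1) * ftm m g η := by
  have h1 : ftm m (fun y => g (y + Pi.single i h) - g y) η =
      ftm m (fun y => g (y + Pi.single i h)) η - ftm m g η := by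
    unfold ftm
    rw [← integral_sub (integrable_char (int_shift hg i h) η) (integrable_char hg η)]
    refine integral_congr_ae (Eventually.of_forall fun y => ?_)
    simp only
    ring
  rw [h1, ftm_shift]
  ring

lemma enorm_ftm_le {m : ℕ} (g : (Fin m → ℝ) → ℂ) (η : Fin m → ℝ) :
    ‖ftm m g η‖ₑ ≤ ∫⁻ y, ‖g y‖ₑ := by
  unfold ftm
  refine (enorm_integral_le_lintegral_enorm _).trans (le_of_eq ?_)
  refine lintegral_congr fun y => ?_
  rw [enorm_mul]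
  have : ‖e (-∑ i, y i * η i)‖ₑ = 1 := by
    rw [← ofReal_norm, norm_e, ENNReal.ofReal_one]
  rw [this, one_mul]

lemma ftm_pl {m : ℕ} (H : (Fin m → ℝ) → ℂ) (h1 : Integrable H) (h2 : MemLp H 2) :
    ∫⁻ η : Fin m → ℝ, ‖ftm m H η‖ₑ ^ 2 = ∫⁻ y : Fin m → ℝ, ‖H y‖ₑ ^ 2 := by
  rw [← ftm_planch H h1 h2]
  have hneg := (Measure.measurePreserving_neg (volume : Measure (Fin m → ℝ))).lintegral_comp_emb
    (MeasurableEquiv.neg (Fin m → ℝ)).measurableEmbedding (fun y => ‖ftm m H y‖ₑ ^ 2)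
  rw [← hneg]
  refine lintegral_congr fun y => ?_
  congr 2
  unfold ftm
  refine integral_congr_ae (Eventually.of_forall fun v => ?_)
  simp only [Pi.neg_apply]
  congr 2
  rw [← Finset.sum_neg_distrib]
  refine Finset.sum_congr rfl fun i _ => ?_
  ring

lemma measurable_ftm {m : ℕ} {g : (Fin m → ℝ) → ℂ} (hg : Integrable g) : Measurable (ftm m g) := by
  obtain ⟨g0, hm0, he0⟩ : ∃ g0 : (Fin m → ℝ) → ℂ, Measurable g0 ∧ g =ᵐ[volume] g0 :=
    ⟨hg.1.mk g, hg.1.stronglyMeasurable_mk.measurable, hg.1.ae_eq_mk⟩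
  have h1 : ftm m g = ftm m g0 := by
    funext η
    unfold ftm
    refine integral_congr_ae ?_
    filter_upwards [he0] with y hy
    rw [hy]
  rw [h1]
  have h2 : StronglyMeasurable (fun q : (Fin m → ℝ) × (Fin m → ℝ) =>
      e (-(∑ i, q.2 i * q.1 i)) * g0 q.2) := by
    apply Measurable.stronglyMeasurable
    exact Measurable.mul (measurable_e.comp (by fun_prop)) (hm0.comp measurable_snd)
  exact (h2.integral_prod_right (ν := volume)).measurable

/-- the `L²` bound with a character -/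
lemma atom_L2 {m : ℕ} {β γ M : ℝ} {a : Fin m → ℝ} {g : (Fin m → ℝ) → ℂ} (hg : Atom m β γ a M g)
    (i : Fin m) (h : ℝ) :
    ∫⁻ η : Fin m → ℝ, ‖e (h * η i) - 1‖ₑ ^ 2 * ‖ftm m g η‖ₑ ^ 2 ≤
      ENNReal.ofReal (M ^ 2 * (∏ i, a i) * (|h| / a i) ^ γ) := by
  obtain ⟨hi, -, hd⟩ := hg
  have h2 := (hd i h).2
  set D : (Fin m → ℝ) → ℂ := fun y => g (y + Pi.single i h) - g y with hD
  have hDi : Integrable D := (int_shift hi i h).sub hi
  have hDm : MemLp D 2 := by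
    refine ⟨hDi.1, ?_⟩
    rw [eLpNorm_lt_top_iff_lintegral_rpow_enorm_lt_top (by norm_num) (by norm_num)]
    have : ∫⁻ y, ‖D y‖ₑ ^ (2 : ℝ≥0∞).toReal = ∫⁻ y, ‖D y‖ₑ ^ 2 := by
      refine lintegral_congr fun y => ?_
      rw [ENNReal.toReal_ofNat, ← ENNReal.rpow_natCast]
      norm_num
    rw [this]
    exact h2.trans_lt ENNReal.ofReal_lt_top
  have h3 := ftm_pl D hDi hDm
  have h4 : ∀ η, ‖e (h * η i) - 1‖ₑ ^ 2 * ‖ftm m g η‖ₑ ^ 2 = ‖ftm m D η‖ₑ ^ 2 := by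
    intro η
    rw [hD, ftm_diff hi, enorm_mul, mul_pow]
  simp only [h4]
  rw [h3]
  exact h2

lemma norm_e_sub_one_sq (x : ℝ) : ‖e x - 1‖ ^ 2 = 2 - 2 * Real.cos (2 * Real.pi * x) := by
  have h1 : e x - 1 = ⟨Real.cos (2 * Real.pi * x) - 1, Real.sin (2 * Real.pi * x)⟩ := by
    unfold e
    apply Complex.ext
    · rw [Complex.sub_re, Complex.exp_ofReal_mul_I_re, Complex.one_re]
    · rw [Complex.sub_im, Complex.exp_ofReal_mul_I_im, Complex.one_im, sub_zero]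
  rw [h1, ← Complex.normSq_eq_norm_sq, Complex.normSq_mk]
  have := Real.sin_sq_add_cos_sq (2 * Real.pi * x)
  nlinarith

lemma e_sub_one_ge {x : ℝ} (h1 : 1 / 4 ≤ |x|) (h2 : |x| ≤ 1 / 2) : 2 ≤ ‖e x - 1‖ ^ 2 := by
  rw [norm_e_sub_one_sq]
  have hpi := Real.pi_pos
  have h3 : Real.cos (2 * Real.pi * x) ≤ 0 := by
    rw [← Real.cos_abs, abs_mul, abs_of_pos (by positivity : (0:ℝ) < 2 * Real.pi)]
    apply Real.cos_nonpos_of_pi_div_two_le_of_le
    · nlinarith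
    · nlinarith
  linarith

lemma e_half {x : ℝ} (h : |x| = 1 / 2) : ‖e x - 1‖ = 2 := by
  have h1 := norm_e_sub_one_sq x
  have h2 : Real.cos (2 * Real.pi * x) = -1 := by
    rw [← Real.cos_abs, abs_mul, h, abs_of_pos (by have := Real.pi_pos; positivity :
      (0:ℝ) < 2 * Real.pi)]
    rw [show 2 * Real.pi * (1 / 2) = Real.pi by ring, Real.cos_pi]
  rw [h2] at h1
  have h3 : ‖e x - 1‖ ^ 2 = 2 ^ 2 := by rw [h1]; norm_num
  exact (pow_left_inj₀ (norm_nonneg _) (by norm_num) (by norm_num)).1 h3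

/-- pointwise decay -/
lemma atom_decay {m : ℕ} {β γ M : ℝ} {a : Fin m → ℝ} {g : (Fin m → ℝ) → ℂ} (ha : ∀ i, 0 < a i)
    (hM : 0 ≤ M) (hβ : 0 ≤ β) (hg : Atom m β γ a M g) (i : Fin m) (η : Fin m → ℝ) (hη : η i ≠ 0) :
    ‖ftm m g η‖ ≤ M * (∏ i, a i) * (a i * |η i|) ^ (-β) := by
  have hP : 0 < ∏ i, a i := Finset.prod_pos fun i _ => ha i
  set h : ℝ := 1 / (2 * η i) with hh
  have h1 := (hg.2.2 i h).1
  have h2 := enorm_ftm_le (fun y => g (y + Pi.single i h) - g y) η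
  rw [ftm_diff hg.1] at h2
  have h3 : ‖e (h * η i) - 1‖ = 2 := by
    apply e_half
    rw [hh, show 1 / (2 * η i) * η i = 1 / 2 by field_simp]
    norm_num
  have h4 := h2.trans h1
  rw [← ofReal_norm, norm_mul, h3] at h4
  have hu : 0 < a i * |η i| := mul_pos (ha i) (abs_pos.2 hη)
  have h5 : |h| / a i = (2 * (a i * |η i|))⁻¹ := by
    rw [hh, abs_div, abs_one, abs_mul, abs_two]
    have := ha i
    have := abs_pos.2 hη
    field_simp
  rw [h5] at h4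
  have h6 : ((2 * (a i * |η i|))⁻¹) ^ β ≤ (a i * |η i|) ^ (-β) := by
    rw [Real.rpow_neg hu.le, ← Real.inv_rpow hu.le]
    refine Real.rpow_le_rpow (by positivity) ?_ hβ
    apply inv_anti₀ hu
    linarith
  have h7 : 2 * ‖ftm m g η‖ ≤ M * (∏ i, a i) * ((2 * (a i * |η i|))⁻¹) ^ β :=
    (ENNReal.ofReal_le_ofReal_iff (by positivity)).1 h4
  have h8 : M * (∏ i, a i) * ((2 * (a i * |η i|))⁻¹) ^ β ≤
      M * (∏ i, a i) * (a i * |η i|) ^ (-β) := mul_le_mul_of_nonneg_left h6 (by positivity)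
  linarith [norm_nonneg (ftm m g η)]

lemma atom_bdd {m : ℕ} {β γ M : ℝ} {a : Fin m → ℝ} {g : (Fin m → ℝ) → ℂ} (ha : ∀ i, 0 < a i)
    (hM : 0 ≤ M) (hg : Atom m β γ a M g) (η : Fin m → ℝ) :
    ‖ftm m g η‖ ≤ M * ∏ i, a i := by
  have hP : 0 < ∏ i, a i := Finset.prod_pos fun i _ => ha i
  have h2 := (enorm_ftm_le g η).trans hg.2.1
  rw [← ofReal_norm] at h2
  exact (ENNReal.ofReal_le_ofReal_iff (by positivity)).1 h2

lemma meas_abs {m : ℕ} (a : Fin m → ℝ) (i : Fin m) :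
    Measurable (fun η : Fin m → ℝ => a i * |η i|) := by fun_prop

lemma meas_piece {m : ℕ} (a : Fin m → ℝ) (i : Fin m) (r r' : ℝ) :
    MeasurableSet {η : Fin m → ℝ | r ≤ a i * |η i| ∧ a i * |η i| < r'} :=
  (measurableSet_le measurable_const (meas_abs a i)).inter
    (measurableSet_lt (meas_abs a i) measurable_const)

/-- dyadic pieces -/
lemma atom_dyadic {m : ℕ} {β γ M : ℝ} {a : Fin m → ℝ} {g : (Fin m → ℝ) → ℂ} (ha : ∀ i, 0 < a i)
    (hγ : 0 ≤ γ) (hg : Atom m β γ a M g) (i : Fin m) (r : ℝ) (hr : 0 < r) :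
    ∫⁻ η in {η : Fin m → ℝ | r ≤ a i * |η i| ∧ a i * |η i| < 2 * r}, ‖ftm m g η‖ₑ ^ 2 ≤
      ENNReal.ofReal (M ^ 2 * (∏ i, a i) * r ^ (-γ)) := by
  have hai := ha i
  have hP : 0 < ∏ i, a i := Finset.prod_pos fun i _ => ha i
  set h : ℝ := a i / (4 * r) with hh
  have hh0 : 0 < h := by positivity
  have h1 := atom_L2 hg i h
  have hms : MeasurableSet {η : Fin m → ℝ | r ≤ a i * |η i| ∧ a i * |η i| < 2 * r} :=
    meas_piece a i r (2 * r)
  have h2 : ∫⁻ η in {η : Fin m → ℝ | r ≤ a i * |η i| ∧ a i * |η i| < 2 * r}, ‖ftm m g η‖ₑ ^ 2 ≤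
      ∫⁻ η : Fin m → ℝ, ‖e (h * η i) - 1‖ₑ ^ 2 * ‖ftm m g η‖ₑ ^ 2 := by
    refine le_trans ?_ (setLIntegral_le_lintegral
      {η : Fin m → ℝ | r ≤ a i * |η i| ∧ a i * |η i| < 2 * r} _)
    refine setLIntegral_mono' hms fun η hη => ?_
    have hr1 : a i * |η i| / (4 * r) = |h * η i| := by
      rw [abs_mul, abs_of_pos hh0, hh]
      ring
    have h3 : 1 / 4 ≤ |h * η i| := by
      rw [← hr1, div_le_div_iff₀ (by norm_num) (by positivity)]
      linarith [hη.1]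
    have h4 : |h * η i| ≤ 1 / 2 := by
      rw [← hr1, div_le_div_iff₀ (by positivity) (by norm_num)]
      linarith [hη.2]
    have h5 := e_sub_one_ge h3 h4
    have h6 : (1 : ℝ≥0∞) ≤ ‖e (h * η i) - 1‖ₑ ^ 2 := by
      rw [← ofReal_norm, ← ENNReal.ofReal_pow (norm_nonneg _), ← ENNReal.ofReal_one]
      exact ENNReal.ofReal_le_ofReal (by linarith)
    calc ‖ftm m g η‖ₑ ^ 2 = 1 * ‖ftm m g η‖ₑ ^ 2 := (one_mul _).symm
      _ ≤ _ := mul_le_mul_left h6 _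
  refine h2.trans (h1.trans (ENNReal.ofReal_le_ofReal ?_))
  refine mul_le_mul_of_nonneg_left ?_ (by positivity)
  have h7 : |h| / a i = (4 * r)⁻¹ := by
    rw [abs_of_pos hh0, hh]
    field_simp
  rw [h7, Real.rpow_neg hr.le, ← Real.inv_rpow hr.le]
  refine Real.rpow_le_rpow (by positivity) ?_ hγ
  apply inv_anti₀ hr
  linarith

/-- the high frequencies -/
lemma atom_high {m : ℕ} {β γ M θ : ℝ} {a : Fin m → ℝ} {g : (Fin m → ℝ) → ℂ} (ha : ∀ i, 0 < a i)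
    (hγ : 0 ≤ γ) (hθ : 0 ≤ θ) (hθγ : θ < γ) (hg : Atom m β γ a M g) (i : Fin m) :
    ∫⁻ η in {η : Fin m → ℝ | 1 ≤ a i * |η i|},
      ENNReal.ofReal ((a i * |η i|) ^ θ) * ‖ftm m g η‖ₑ ^ 2 ≤
      ENNReal.ofReal (2 ^ θ * (1 - 2 ^ (θ - γ))⁻¹ * (M ^ 2 * ∏ i, a i)) := by
  have hP : 0 < ∏ i, a i := Finset.prod_pos fun i _ => ha i
  set S : ℕ → Set (Fin m → ℝ) := fun k =>
    {η : Fin m → ℝ | (2 : ℝ) ^ k ≤ a i * |η i| ∧ a i * |η i| < 2 * (2 : ℝ) ^ k} with hS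
  have hms : ∀ k, MeasurableSet (S k) := by
    intro k
    exact meas_piece a i _ _
  have hsub : {η : Fin m → ℝ | 1 ≤ a i * |η i|} ⊆ ⋃ k, S k := by
    intro η hη
    obtain ⟨k, hk1, hk2⟩ := exists_nat_pow_near (x := a i * |η i|) (y := 2) hη (by norm_num)
    refine mem_iUnion.2 ⟨k, hk1, ?_⟩
    rw [pow_succ] at hk2
    linarith
  have hq0 : (0 : ℝ) < 2 ^ (θ - γ) := by positivity
  have hq1 : (2 : ℝ) ^ (θ - γ) < 1 := Real.rpow_lt_one_of_one_lt_of_neg (by norm_num) (by linarith)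
  calc ∫⁻ η in {η : Fin m → ℝ | 1 ≤ a i * |η i|},
      ENNReal.ofReal ((a i * |η i|) ^ θ) * ‖ftm m g η‖ₑ ^ 2
      ≤ ∫⁻ η in ⋃ k, S k, ENNReal.ofReal ((a i * |η i|) ^ θ) * ‖ftm m g η‖ₑ ^ 2 :=
        lintegral_mono_set hsub
    _ ≤ ∑' k, ∫⁻ η in S k, ENNReal.ofReal ((a i * |η i|) ^ θ) * ‖ftm m g η‖ₑ ^ 2 :=
        lintegral_iUnion_le _ _
    _ ≤ ∑' k : ℕ, ENNReal.ofReal (2 ^ θ * (M ^ 2 * ∏ i, a i) * (2 ^ (θ - γ)) ^ k) := by
        refine ENNReal.tsum_le_tsum fun k => ?_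
        have h2k : (0 : ℝ) < 2 ^ k := by positivity
        calc ∫⁻ η in S k, ENNReal.ofReal ((a i * |η i|) ^ θ) * ‖ftm m g η‖ₑ ^ 2
            ≤ ∫⁻ η in S k, ENNReal.ofReal ((2 * (2 : ℝ) ^ k) ^ θ) * ‖ftm m g η‖ₑ ^ 2 := by
              refine setLIntegral_mono' (hms k) fun η hη => ?_
              refine mul_le_mul_left (ENNReal.ofReal_le_ofReal ?_) _
              exact Real.rpow_le_rpow (by have := ha i; positivity) hη.2.le hθ
          _ = ENNReal.ofReal ((2 * (2 : ℝ) ^ k) ^ θ) * ∫⁻ η in S k, ‖ftm m g η‖ₑ ^ 2 :=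
              lintegral_const_mul' _ _ ENNReal.ofReal_ne_top
          _ ≤ ENNReal.ofReal ((2 * (2 : ℝ) ^ k) ^ θ) *
              ENNReal.ofReal (M ^ 2 * (∏ i, a i) * ((2 : ℝ) ^ k) ^ (-γ)) :=
              mul_le_mul_right (atom_dyadic ha hγ hg i _ h2k) _
          _ = ENNReal.ofReal (2 ^ θ * (M ^ 2 * ∏ i, a i) * (2 ^ (θ - γ)) ^ k) := by
              rw [← ENNReal.ofReal_mul (by positivity)]
              congr 1
              rw [Real.mul_rpow (by norm_num) h2k.le]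
              have e1 : ((2 : ℝ) ^ (θ - γ)) ^ k = ((2 : ℝ) ^ k) ^ θ * ((2 : ℝ) ^ k) ^ (-γ) := by
                rw [← Real.rpow_add h2k, ← Real.rpow_natCast, ← Real.rpow_natCast,
                  ← Real.rpow_mul (by norm_num), ← Real.rpow_mul (by norm_num)]
                congr 1
                ring
              rw [e1]
              ring
    _ = ENNReal.ofReal (2 ^ θ * (1 - 2 ^ (θ - γ))⁻¹ * (M ^ 2 * ∏ i, a i)) := by
        rw [← ENNReal.ofReal_tsum_of_nonneg (fun k => by positivity)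
          ((summable_geometric_of_lt_one hq0.le hq1).mul_left _), tsum_mul_left,
          tsum_geometric_of_lt_one hq0.le hq1]
        congr 1
        ring

end Pool.Agent.Y507.LS
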