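import Mathlib
set_option autoImplicit false

/-! # An integral over the levels -/

open MeasureTheory Set Filter
open scoped ENNReal

namespace Pool.Agent.Y507.LS

lemma lint_rpow {c r0 : ℝ} (hc : 0 < c) (hr : 0 < r0) :
    ∫⁻ r in Ioi r0, ENNReal.ofReal (r ^ (-(1 + c))) = ENNReal.ofReal (r0 ^ (-c) / c) := by
  have h1 : -(1 + c) < -1 := by linarith
  rw [← ofReal_integral_eq_lintegral_ofReal (integrableOn_Ioi_rpow_of_lt h1 hr)
    ((ae_restrict_iff' measurableSet_Ioi).2 (Eventually.of_forall fun r hr' =>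
      Real.rpow_nonneg (hr.trans hr').le _)), integral_Ioi_rpow_of_lt h1 hr]
  congr 1
  have : -(1 + c) + 1 = -c := by ring
  rw [this]
  field_simp

theorem cont_int {p c R : ℝ} (hp : 1 ≤ p) (hc : 0 < c) (hR : 0 < R) {v : ℝ → ℝ} {E : ℝ}
    (hE : 0 ≤ E) (hv : ∀ r, 0 < r → 0 ≤ v r ∧ v r ≤ R)
    (hvE : ∀ r, 0 < r → r * v r ^ (1 / p) ≤ E) :
    ∫⁻ r in Ioi (0 : ℝ), ENNReal.ofReal (v r ^ ((1 + c) / p)) ≤
      ENNReal.ofReal (R ^ (c / p) * (1 + 1 / c) * E) := by
  have hp0 : 0 < p := by linarith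
  rcases hE.eq_or_lt with hE0 | hE0
  · have h1 : ∫⁻ r in Ioi (0 : ℝ), ENNReal.ofReal (v r ^ ((1 + c) / p)) = 0 := by
      rw [← lintegral_zero (μ := volume.restrict (Ioi (0 : ℝ)))]
      refine setLIntegral_congr_fun measurableSet_Ioi fun r hr => ?_
      have h2 := hvE r hr
      rw [← hE0] at h2
      have h3 : v r ^ (1 / p) ≤ 0 := by
        by_contra hcon
        push Not at hcon
        have := mul_pos (show (0 : ℝ) < r from hr) hcon
        linarith
      have h4 : v r = 0 := by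
        by_contra hne
        have h5 : 0 < v r := lt_of_le_of_ne (hv r hr).1 (Ne.symm hne)
        have := Real.rpow_pos_of_pos h5 (1 / p)
        linarith
      simp only [h4]
      rw [Real.zero_rpow (by positivity), ENNReal.ofReal_zero]
    rw [h1]
    exact bot_le
  set r0 : ℝ := E * R ^ (-(1 / p)) with hr0
  have hr0p : 0 < r0 := by positivity
  have hsplit : Ioi (0 : ℝ) = Ioc 0 r0 ∪ Ioi r0 := (Ioc_union_Ioi_eq_Ioi hr0p.le).symm
  rw [hsplit]
  refine (lintegral_union_le _ _ _).trans ?_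
  have hA : ∫⁻ r in Ioc 0 r0, ENNReal.ofReal (v r ^ ((1 + c) / p)) ≤
      ENNReal.ofReal (R ^ (c / p) * E) := by
    have h1 : ∫⁻ r in Ioc 0 r0, ENNReal.ofReal (v r ^ ((1 + c) / p)) ≤
        ∫⁻ _r in Ioc 0 r0, ENNReal.ofReal (R ^ ((1 + c) / p)) := by
      refine setLIntegral_mono' measurableSet_Ioc fun r hr => ?_
      exact ENNReal.ofReal_le_ofReal
        (Real.rpow_le_rpow (hv r hr.1).1 (hv r hr.1).2 (by positivity))
    refine h1.trans (le_of_eq ?_)
    rw [setLIntegral_const, Real.volume_Ioc, sub_zero, ← ENNReal.ofReal_mul (by positivity)]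
    congr 1
    rw [hr0]
    have : R ^ ((1 + c) / p) * R ^ (-(1 / p)) = R ^ (c / p) := by
      rw [← Real.rpow_add hR]
      congr 1
      ring
    rw [← this]
    ring
  have hB : ∫⁻ r in Ioi r0, ENNReal.ofReal (v r ^ ((1 + c) / p)) ≤
      ENNReal.ofReal (R ^ (c / p) * (1 / c) * E) := by
    have h1 : ∫⁻ r in Ioi r0, ENNReal.ofReal (v r ^ ((1 + c) / p)) ≤
        ∫⁻ r in Ioi r0, ENNReal.ofReal (E ^ (1 + c)) * ENNReal.ofReal (r ^ (-(1 + c))) := by
      refine setLIntegral_mono' measurableSet_Ioi fun r hr => ?_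
      have hr1 : 0 < r := hr0p.trans hr
      rw [← ENNReal.ofReal_mul (by positivity)]
      refine ENNReal.ofReal_le_ofReal ?_
      have h2 : v r ^ (1 / p) ≤ E / r := by
        rw [le_div_iff₀ hr1]
        linarith [hvE r hr1]
      have h3 : v r ^ ((1 + c) / p) = (v r ^ (1 / p)) ^ (1 + c) := by
        rw [← Real.rpow_mul (hv r hr1).1]
        congr 1
        ring
      rw [h3]
      refine (Real.rpow_le_rpow (Real.rpow_nonneg (hv r hr1).1 _) h2 (by linarith)).trans
        (le_of_eq ?_)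
      rw [Real.div_rpow hE0.le hr1.le, Real.rpow_neg hr1.le]
      ring
    refine h1.trans (le_of_eq ?_)
    rw [lintegral_const_mul' _ _ ENNReal.ofReal_ne_top, lint_rpow hc hr0p,
      ← ENNReal.ofReal_mul (by positivity)]
    congr 1
    have h4 : r0 ^ (-c) = E ^ (-c) * R ^ (c / p) := by
      rw [hr0, Real.mul_rpow hE0.le (by positivity), ← Real.rpow_mul hR.le]
      congr 2
      ring
    have h5 : E ^ (1 + c) * E ^ (-c) = E := by
      rw [← Real.rpow_add hE0]
      have : 1 + c + -c = 1 := by ring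
      rw [this, Real.rpow_one]
    rw [h4]
    calc E ^ (1 + c) * (E ^ (-c) * R ^ (c / p) / c) =
        (E ^ (1 + c) * E ^ (-c)) * R ^ (c / p) * (1 / c) := by ring
      _ = _ := by rw [h5]; ring
  refine (add_le_add hA hB).trans (le_of_eq ?_)
  rw [← ENNReal.ofReal_add (by positivity) (by positivity)]
  congr 1
  ring

end Pool.Agent.Y507.LS
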