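import Pool.Agent.Y507.LS.Slice
set_option autoImplicit false

/-! # The weighted bound with a gain for small sides -/

open MeasureTheory Set Filter
open scoped ENNReal FourierTransform RealInnerProductSpace Topology

namespace Pool.Agent.Y507.LS

open Pool.Agent.TH280.LS

lemma Wp_nonneg (m : ℕ) (p s2 : ℝ) (η : Fin m → ℝ) : 0 ≤ Wp m p s2 η := by
  unfold Wp
  exact mul_nonneg (Real.rpow_nonneg (Finset.prod_nonneg fun i _ => abs_nonneg _) _)
    (Real.rpow_nonneg (kp_nonneg m s2 η) _)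

lemma nr_ge {m : ℕ} (η : Fin m → ℝ) (i : Fin m) : |η i| ≤ nr η := by
  unfold nr
  rw [← Real.sqrt_sq_eq_abs]
  exact Real.sqrt_le_sqrt (Finset.single_le_sum (f := fun i => η i ^ 2)
    (fun j _ => sq_nonneg _) (Finset.mem_univ i))

lemma Wp_split (m : ℕ) {p s2 s2' X : ℝ} (hp : 0 ≤ p) (hs : s2' ≤ s2) (hX : 0 < X)
    (η : Fin m → ℝ) (hη : X ≤ 1 + nr η) :
    Wp m p s2 η ≤ X ^ (-((s2 - s2') * p)) * Wp m p s2' η := by
  have h0 : 0 < 1 + nr η := lt_of_lt_of_le hX hη
  have h1 : kp m s2 η ^ p = (1 + nr η) ^ (-((s2 - s2') * p)) * kp m s2' η ^ p := by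
    unfold kp
    rw [← Real.rpow_mul h0.le, ← Real.rpow_mul h0.le, ← Real.rpow_add h0]
    congr 1
    ring
  have h2 : (1 + nr η) ^ (-((s2 - s2') * p)) ≤ X ^ (-((s2 - s2') * p)) :=
    Real.rpow_le_rpow_of_nonpos hX hη (by
      have := mul_nonneg (sub_nonneg.2 hs) hp
      linarith)
  unfold Wp
  rw [h1]
  have h3 : 0 ≤ (∏ i, |η i|) ^ (p - 2) :=
    Real.rpow_nonneg (Finset.prod_nonneg fun i _ => abs_nonneg _) _
  have h4 : 0 ≤ kp m s2' η ^ p := Real.rpow_nonneg (kp_nonneg m s2' η) _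
  calc (∏ i, |η i|) ^ (p - 2) * ((1 + nr η) ^ (-((s2 - s2') * p)) * kp m s2' η ^ p)
      = (1 + nr η) ^ (-((s2 - s2') * p)) * ((∏ i, |η i|) ^ (p - 2) * kp m s2' η ^ p) := by ring
    _ ≤ _ := mul_le_mul_of_nonneg_right h2 (mul_nonneg h3 h4)

theorem atom_gain {m : ℕ} (hm : 0 < m) {β γ p s2 R0 : ℝ} (hR : 0 < R0) (hβ : 0 ≤ β) (hγ : 0 < γ)
    (hp : 2 ≤ p) (hs : 0 < s2) (hcond : ((m : ℝ) - β) * (p - 2) - γ < s2 * p) :
    ∃ c C : ℝ, 0 < c ∧ 0 < C ∧ ∀ (a : Fin m → ℝ) (M : ℝ) (g : (Fin m → ℝ) → ℂ),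
      (∀ i, 0 < a i) → (∀ i, a i ≤ R0) → 0 ≤ M → Atom m β γ a M g →
      ∫⁻ η : Fin m → ℝ, ENNReal.ofReal (Wp m p s2 η) * ‖ftm m g η‖ₑ ^ p ≤
        ENNReal.ofReal (C * (M ^ p * (∏ i, a i) ^ (1 + c))) := by
  have hp0 : 0 < p := by linarith
  have hm0 : (0 : ℝ) < m := by exact_mod_cast hm
  set σ0 : ℝ := max 0 ((((m : ℝ) - β) * (p - 2) - γ) / p) with hσ0
  have hσs : σ0 < s2 := max_lt hs (by rw [div_lt_iff₀ hp0]; exact hcond)
  have hσ1 : 0 ≤ σ0 := le_max_left _ _
  have hσ2 : (((m : ℝ) - β) * (p - 2) - γ) / p ≤ σ0 := le_max_right _ _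
  set s2' : ℝ := (s2 + σ0) / 2 with hs2'
  have hs2'0 : 0 ≤ s2' := by rw [hs2']; linarith
  have hlt : s2' < s2 := by rw [hs2']; linarith
  have hgt : σ0 < s2' := by rw [hs2']; linarith
  set θ : ℝ := max 0 (((m : ℝ) - β) * (p - 2) - s2' * p) with hθd
  have hθ0 : 0 ≤ θ := le_max_left _ _
  have hθγ : θ < γ := by
    refine max_lt hγ ?_
    have h1 : (((m : ℝ) - β) * (p - 2) - γ) / p < s2' := lt_of_le_of_lt hσ2 hgt
    rw [div_lt_iff₀ hp0] at h1
    linarith
  have hθ : ((m : ℝ) - β) * (p - 2) - s2' * p ≤ θ := le_max_right _ _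
  set δ : ℝ := s2 - s2' with hδ
  have hδ0 : 0 < δ := by rw [hδ]; linarith
  set c : ℝ := min (1 / 2) (δ * p / (2 * m)) with hc
  have hc0 : 0 < c := lt_min (by norm_num) (by positivity)
  have hc1 : c ≤ 1 / 2 := min_le_left _ _
  have hc2 : c ≤ δ * p / (2 * m) := min_le_right _ _
  have hC' : 0 < CC m p s2' γ θ R0 := CC_pos m hR hθγ
  set C' : ℝ := CC m p s2' γ θ R0 with hC'd
  refine ⟨c, 2 ^ m + C', hc0, by positivity, ?_⟩
  intro a M g ha haR hM hg
  have hP : 0 < ∏ i, a i := Finset.prod_pos fun i _ => ha i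
  have hbase := atom_weight hm ha haR hR hM hβ hθ0 hθγ hp hs2'0 hθ hg
  set P := ∏ i, a i with hPd
  have hmf : Measurable (ftm m g) := measurable_ftm hg.1
  have hMp : 0 ≤ M ^ p := Real.rpow_nonneg hM _
  by_cases hP1 : 1 ≤ P
  · have h1 : ∀ η : Fin m → ℝ, ENNReal.ofReal (Wp m p s2 η) * ‖ftm m g η‖ₑ ^ p ≤
        ENNReal.ofReal (Wp m p s2' η) * ‖ftm m g η‖ₑ ^ p := by
      intro η
      refine mul_le_mul_left (ENNReal.ofReal_le_ofReal ?_) _
      have hnr : 0 ≤ nr η := Real.sqrt_nonneg _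
      have := Wp_split m hp0.le hlt.le one_pos η (by linarith)
      rwa [Real.one_rpow, one_mul] at this
    refine (lintegral_mono h1).trans (hbase.trans (ENNReal.ofReal_le_ofReal ?_))
    have h2 : P ≤ P ^ (1 + c) := by
      conv_lhs => rw [← Real.rpow_one P]
      exact Real.rpow_le_rpow_of_exponent_le hP1 (by linarith)
    have h3 : M ^ p * P ≤ M ^ p * P ^ (1 + c) := mul_le_mul_of_nonneg_left h2 hMp
    have h4 : 0 ≤ M ^ p * P ^ (1 + c) := by positivity
    have h5 : (0 : ℝ) ≤ 2 ^ m := by positivity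
    nlinarith [mul_le_mul_of_nonneg_left h3 hC'.le, mul_nonneg h5 h4]
  · push Not at hP1
    set X : ℝ := P ^ (-(1 / (2 * (m : ℝ)))) with hX
    have hX0 : 0 < X := Real.rpow_pos_of_pos hP _
    set b : Fin m → ℝ := fun _ => 1 / X with hb
    have hb0 : ∀ i, 0 < b i := fun i => by rw [hb]; positivity
    set Lo : Set (Fin m → ℝ) := {η | ∀ i, b i * |η i| ≤ 1} with hLo
    have hLom : MeasurableSet Lo := by
      rw [hLo, setOf_forall]
      exact MeasurableSet.iInter fun i => measurableSet_le (meas_abs b i) measurable_const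
    set K : ℝ := (X ^ m) ^ (p - 2) * (M * P) ^ p with hK
    have hK0 : 0 ≤ K := by positivity
    set q : ℝ := X ^ (-(δ * p)) with hq
    have hq0 : 0 ≤ q := by positivity
    have hpt : ∀ η : Fin m → ℝ, ENNReal.ofReal (Wp m p s2 η) * ‖ftm m g η‖ₑ ^ p ≤
        Lo.indicator (fun _ => ENNReal.ofReal K) η +
        ENNReal.ofReal q * (ENNReal.ofReal (Wp m p s2' η) * ‖ftm m g η‖ₑ ^ p) := by
      intro η
      by_cases hη : η ∈ Lo
      · refine le_trans ?_ le_self_add
        rw [indicator_of_mem hη, enorm_pow hp0.le, ← ENNReal.ofReal_mul (Wp_nonneg m p s2 η)]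
        refine ENNReal.ofReal_le_ofReal ?_
        have h1 : ∏ i, |η i| ≤ X ^ m := by
          have : ∏ i : Fin m, |η i| ≤ ∏ _i : Fin m, X := by
            refine Finset.prod_le_prod (fun i _ => abs_nonneg _) fun i _ => ?_
            have h2 : b i * |η i| ≤ 1 := hη i
            rw [hb] at h2
            simp only at h2
            rwa [one_div, inv_mul_le_iff₀ hX0, mul_one] at h2
          rwa [Finset.prod_const, Finset.card_univ, Fintype.card_fin] at this
        have h2 : (∏ i, |η i|) ^ (p - 2) ≤ (X ^ m) ^ (p - 2) :=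
          Real.rpow_le_rpow (Finset.prod_nonneg fun i _ => abs_nonneg _) h1 (by linarith)
        have h3 : kp m s2 η ^ p ≤ 1 :=
          Real.rpow_le_one (kp_nonneg m s2 η) (kp_le_one m hs.le η) hp0.le
        have h4 : Wp m p s2 η ≤ (X ^ m) ^ (p - 2) := by
          unfold Wp
          have h5 : 0 ≤ (∏ i, |η i|) ^ (p - 2) :=
            Real.rpow_nonneg (Finset.prod_nonneg fun i _ => abs_nonneg _) _
          calc (∏ i, |η i|) ^ (p - 2) * kp m s2 η ^ p ≤ (∏ i, |η i|) ^ (p - 2) * 1 :=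
                mul_le_mul_of_nonneg_left h3 h5
            _ ≤ _ := by rw [mul_one]; exact h2
        have h5 : ‖ftm m g η‖ ^ p ≤ (M * P) ^ p :=
          Real.rpow_le_rpow (norm_nonneg _) (atom_bdd ha hM hg η) hp0.le
        exact mul_le_mul h4 h5 (Real.rpow_nonneg (norm_nonneg _) _) (by positivity)
      · refine le_trans ?_ le_add_self
        rw [← mul_assoc, ← ENNReal.ofReal_mul hq0]
        refine mul_le_mul_left (ENNReal.ofReal_le_ofReal ?_) _
        have h1 : ∃ i, 1 < b i * |η i| := by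
          by_contra hcon
          push Not at hcon
          exact hη hcon
        obtain ⟨i, hi⟩ := h1
        have h2 : X ≤ 1 + nr η := by
          have h3 : X < |η i| := by
            rw [hb] at hi
            simp only at hi
            rwa [one_div, lt_inv_mul_iff₀ hX0, mul_one] at hi
          have := nr_ge η i
          linarith
        exact Wp_split m hp0.le hlt.le hX0 η h2
    have hvol : volume Lo = ENNReal.ofReal (2 ^ m * X ^ m) := by
      rw [hLo, vol_low hb0]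
      congr 1
      rw [hb]
      simp only [Finset.prod_const, Finset.card_univ, Fintype.card_fin]
      rw [one_div, inv_pow, div_inv_eq_mul]
    have hXm : X ^ m = P ^ (-(1 / 2 : ℝ)) := by
      rw [hX, ← Real.rpow_natCast, ← Real.rpow_mul hP.le]
      congr 1
      field_simp
    have hKX : K * (2 ^ m * X ^ m) = 2 ^ m * (M ^ p * P ^ ((p + 1) / 2)) := by
      rw [hK, hXm, ← Real.rpow_mul hP.le, Real.mul_rpow hM hP.le]
      have : P ^ (-(1 / 2 : ℝ) * (p - 2)) * P ^ p * P ^ (-(1 / 2 : ℝ)) = P ^ ((p + 1) / 2) := by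
        rw [← Real.rpow_add hP, ← Real.rpow_add hP]
        congr 1
        ring
      rw [← this]
      ring
    have hP2 : P ^ ((p + 1) / 2) ≤ P ^ (1 + c) :=
      Real.rpow_le_rpow_of_exponent_ge hP hP1.le (by linarith)
    have hqP : q * P ≤ P ^ (1 + c) := by
      have h1 : q = P ^ (δ * p / (2 * m)) := by
        rw [hq, hX, ← Real.rpow_mul hP.le]
        congr 1
        field_simp
      have h2 : q ≤ P ^ c := by
        rw [h1]
        exact Real.rpow_le_rpow_of_exponent_ge hP hP1.le hc2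
      rw [add_comm, Real.rpow_add hP, Real.rpow_one]
      exact mul_le_mul_of_nonneg_right h2 hP.le
    calc ∫⁻ η : Fin m → ℝ, ENNReal.ofReal (Wp m p s2 η) * ‖ftm m g η‖ₑ ^ p
        ≤ ∫⁻ η : Fin m → ℝ, (Lo.indicator (fun _ => ENNReal.ofReal K) η +
        ENNReal.ofReal q * (ENNReal.ofReal (Wp m p s2' η) * ‖ftm m g η‖ₑ ^ p)) :=
          lintegral_mono hpt
      _ = ENNReal.ofReal K * ENNReal.ofReal (2 ^ m * X ^ m) + ENNReal.ofReal q *
          ∫⁻ η : Fin m → ℝ, ENNReal.ofReal (Wp m p s2' η) * ‖ftm m g η‖ₑ ^ p := by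
          rw [lintegral_add_left (measurable_const.indicator hLom), lintegral_indicator hLom,
            setLIntegral_const, hvol, lintegral_const_mul' _ _ ENNReal.ofReal_ne_top]
      _ ≤ ENNReal.ofReal (2 ^ m * (M ^ p * P ^ ((p + 1) / 2))) +
          ENNReal.ofReal (q * (C' * (M ^ p * P))) := by
          refine add_le_add (le_of_eq ?_) ?_
          · rw [← ENNReal.ofReal_mul hK0, hKX]
          · rw [ENNReal.ofReal_mul hq0]
            exact mul_le_mul_right hbase _
      _ = ENNReal.ofReal (2 ^ m * (M ^ p * P ^ ((p + 1) / 2)) + q * (C' * (M ^ p * P))) := by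
          rw [← ENNReal.ofReal_add (by positivity) (by positivity)]
      _ ≤ _ := by
          refine ENNReal.ofReal_le_ofReal ?_
          have h1 : 2 ^ m * (M ^ p * P ^ ((p + 1) / 2)) ≤ 2 ^ m * (M ^ p * P ^ (1 + c)) := by
            gcongr
          have h2 : q * (C' * (M ^ p * P)) ≤ C' * (M ^ p * P ^ (1 + c)) := by
            calc q * (C' * (M ^ p * P)) = C' * (M ^ p * (q * P)) := by ring
              _ ≤ _ := by gcongr
          calc _ ≤ 2 ^ m * (M ^ p * P ^ (1 + c)) + C' * (M ^ p * P ^ (1 + c)) := add_le_add h1 h2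
            _ = _ := by ring

end Pool.Agent.Y507.LS
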