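import Mathlib
set_option autoImplicit false

/-! # Minkowski's inequality for countable sums -/

open MeasureTheory Set Filter
open scoped ENNReal

namespace Pool.Agent.Y507.LS

lemma mink_fin {α : Type*} [MeasurableSpace α] {μ : Measure α} {p : ℝ} (hp : 1 ≤ p)
    (f : ℕ → α → ℝ≥0∞) (hf : ∀ k, Measurable (f k)) (n : ℕ) :
    (∫⁻ x, (∑ k ∈ Finset.range n, f k x) ^ p ∂μ) ^ (1 / p) ≤
      ∑ k ∈ Finset.range n, (∫⁻ x, f k x ^ p ∂μ) ^ (1 / p) := by
  have hp0 : 0 < p := by linarith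
  induction n with
  | zero =>
    simp only [Finset.range_zero, Finset.sum_empty]
    rw [ENNReal.zero_rpow_of_pos hp0, lintegral_zero, ENNReal.zero_rpow_of_pos (by positivity)]
  | succ n ih =>
    have hm : Measurable (fun x => ∑ k ∈ Finset.range n, f k x) :=
      Finset.measurable_fun_sum _ fun k _ => hf k
    have h1 := ENNReal.lintegral_Lp_add_le (μ := μ) hm.aemeasurable (hf n).aemeasurable hp
    simp only [Pi.add_apply] at h1
    simp only [Finset.sum_range_succ]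
    exact h1.trans (add_le_add ih le_rfl)

lemma mink_nat {α : Type*} [MeasurableSpace α] {μ : Measure α} {p : ℝ} (hp : 1 ≤ p)
    (f : ℕ → α → ℝ≥0∞) (hf : ∀ k, Measurable (f k)) :
    (∫⁻ x, (∑' k, f k x) ^ p ∂μ) ^ (1 / p) ≤ ∑' k, (∫⁻ x, f k x ^ p ∂μ) ^ (1 / p) := by
  have hp0 : 0 < p := by linarith
  have h1 : ∀ x, (∑' k, f k x) ^ p = ⨆ n : ℕ, (∑ k ∈ Finset.range n, f k x) ^ p := by
    intro x
    rw [ENNReal.tsum_eq_iSup_nat]
    exact (ENNReal.orderIsoRpow p hp0).map_iSup _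
  simp only [h1]
  rw [lintegral_iSup]
  · have h2 : (⨆ n : ℕ, ∫⁻ x, (∑ k ∈ Finset.range n, f k x) ^ p ∂μ) ^ (1 / p) =
        ⨆ n : ℕ, (∫⁻ x, (∑ k ∈ Finset.range n, f k x) ^ p ∂μ) ^ (1 / p) :=
      (ENNReal.orderIsoRpow (1 / p) (by positivity)).map_iSup _
    rw [h2]
    refine iSup_le fun n => (mink_fin hp f hf n).trans ?_
    exact ENNReal.sum_le_tsum _
  · intro n
    exact (Finset.measurable_fun_sum _ fun k _ => hf k).pow_const p
  · intro i j hij x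
    refine ENNReal.rpow_le_rpow ?_ hp0.le
    exact Finset.sum_le_sum_of_subset (Finset.range_mono hij)

/-- Minkowski's inequality for sums over the integers -/
theorem mink {α : Type*} [MeasurableSpace α] {μ : Measure α} {p : ℝ} (hp : 1 ≤ p)
    (f : ℤ → α → ℝ≥0∞) (hf : ∀ k, Measurable (f k)) :
    (∫⁻ x, (∑' k, f k x) ^ p ∂μ) ^ (1 / p) ≤ ∑' k, (∫⁻ x, f k x ^ p ∂μ) ^ (1 / p) := by
  have h1 := mink_nat (μ := μ) hp (fun n => f (Equiv.intEquivNat.symm n)) fun k => hf _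
  have h2 : ∀ x, ∑' n : ℕ, f (Equiv.intEquivNat.symm n) x = ∑' k : ℤ, f k x := fun x =>
    Equiv.intEquivNat.symm.tsum_eq (fun k => f k x)
  have h3 : ∑' n : ℕ, (∫⁻ x, f (Equiv.intEquivNat.symm n) x ^ p ∂μ) ^ (1 / p) =
      ∑' k : ℤ, (∫⁻ x, f k x ^ p ∂μ) ^ (1 / p) :=
    Equiv.intEquivNat.symm.tsum_eq (fun k => (∫⁻ x, f k x ^ p ∂μ) ^ (1 / p))
  simp only [h2, h3] at h1
  exact h1

end Pool.Agent.Y507.LS
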