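import Mathlib
set_option autoImplicit false

/-! # Local smoothing for data with quasiconcave slices: statements of three elementary steps -/

open MeasureTheory Set Filter
open scoped ENNReal Topology

namespace Pool.Agent.Y507.LS

/-- the part of `u` between `lo` and `2 lo` -/
noncomputable def layer (lo u : ℝ) : ℝ := min u (2 * lo) - min u lo

/-- SHIFT: the layer of a function whose superlevel sets lie in a box and are unions of intervals
on lines parallel to the axes -/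
def S_SHIFT : Prop := ∀ (m : ℕ) (F : (Fin m → ℝ) → ℝ) (c l : Fin m → ℝ) (lo : ℝ), Measurable F →
  0 < lo → (∀ i, 0 < l i) → (∀ y, lo < F y → ∀ i, c i ≤ y i ∧ y i ≤ c i + l i) →
  (∀ r, lo ≤ r → ∀ (y : Fin m → ℝ) (i : Fin m),
    OrdConnected {t : ℝ | r < F (Function.update y i t)}) →
  ∀ (i : Fin m) (h : ℝ),
    ∫⁻ y, ‖layer lo (F (y + Pi.single i h)) - layer lo (F y)‖ₑ ≤
      ENNReal.ofReal (4 * lo * ((∏ j, l j) * (|h| / l i)))

/-- SER: a series over the integers -/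
def S_SER : Prop := ∀ (p c R : ℝ), 1 ≤ p → 0 < c → 0 < R → ∃ C : ℝ, 0 < C ∧
  ∀ (P : ℤ → ℝ) (E : ℝ), 0 ≤ E → (∀ k, 0 ≤ P k ∧ P k ≤ R) →
    (∀ k, (2 : ℝ) ^ k * P k ^ (1 / p) ≤ E) →
    ∑' k : ℤ, ENNReal.ofReal ((2 : ℝ) ^ k * P k ^ ((1 + c) / p)) ≤ ENNReal.ofReal (C * E)

/-- TELE: the layers of a nonnegative number -/
def S_TELE : Prop := ∀ u : ℝ, 0 ≤ u → HasSum (fun k : ℤ => layer ((2 : ℝ) ^ k) u) u

end Pool.Agent.Y507.LS
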