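import Pool.Agent.Y507.LS.Gain
import Pool.Agent.Y507.LS.Mink
import Pool.Agent.Y507.LS.Stm
set_option autoImplicit false

/-! # The slice inequality for sums of regular functions with dyadic amplitudes -/

open MeasureTheory Set Filter
open scoped ENNReal FourierTransform RealInnerProductSpace Topology

namespace Pool.Agent.Y507.LS

open Pool.Agent.TH280.LS

/-- a decomposition in regular functions with amplitudes `A 2^k` -/
def Lay (m : ℕ) (β γ p R0 Λ : ℝ) (g : (Fin m → ℝ) → ℂ) : Prop :=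
  ∃ (A : ℝ) (a : ℤ → Fin m → ℝ) (G : ℤ → (Fin m → ℝ) → ℂ), 0 < A ∧
    (∀ k i, 0 < a k i ∧ a k i ≤ R0) ∧ (∀ y, HasSum (fun k => G k y) (g y)) ∧
    ∀ k, G k =ᵐ[volume] 0 ∨ (Atom m β γ (a k) (A * 2 ^ k) (G k) ∧
      ENNReal.ofReal ((A * 2 ^ k) ^ p * ∏ i, a k i) ≤ ENNReal.ofReal Λ * ∫⁻ y, ‖g y‖ₑ ^ p)

lemma ftm_zero {m : ℕ} {g : (Fin m → ℝ) → ℂ} (h : g =ᵐ[volume] 0) (η : Fin m → ℝ) :
    ftm m g η = 0 := by
  unfold ftm
  rw [integral_eq_zero_of_ae]
  filter_upwards [h] with y hy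
  rw [hy]
  simp

lemma meas_Wp (m : ℕ) (p s2 : ℝ) : Measurable (Wp m p s2) := by
  unfold Wp kp nr
  fun_prop

theorem lay_slice (hSER : S_SER) {m : ℕ} (hm : 0 < m) {β γ p s2 R0 Λ : ℝ} (hR : 0 < R0)
    (hΛ : 0 < Λ) (hβ : 0 ≤ β) (hγ : 0 < γ) (hp : 2 ≤ p) (hs : 0 < s2)
    (hcond : ((m : ℝ) - β) * (p - 2) - γ < s2 * p) :
    ∃ C2 : ℝ, 0 < C2 ∧ ∀ g : (Fin m → ℝ) → ℂ, Lay m β γ p R0 Λ g →
      ∫⁻ η : Fin m → ℝ, ENNReal.ofReal (Wp m p s2 η) * ‖ftm m g η‖ₑ ^ p ≤
        ENNReal.ofReal C2 * ∫⁻ y, ‖g y‖ₑ ^ p := by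
  have hp0 : 0 < p := by linarith
  obtain ⟨c, Cg, hc, hCg, hgain⟩ := atom_gain hm hR hβ hγ hp hs hcond
  have hRm : 0 < R0 ^ m := by positivity
  obtain ⟨C3, hC3, hser⟩ := hSER p c (R0 ^ m) (by linarith) hc hRm
  obtain ⟨C4, hC4, hser'⟩ := hSER p (p - 1) (R0 ^ m) (by linarith) (by linarith) hRm
  refine ⟨Cg * C3 ^ p * Λ, by positivity, ?_⟩
  rintro g ⟨A, a, G, hA, ha, hsum, hG⟩
  set N : ℝ≥0∞ := ∫⁻ y, ‖g y‖ₑ ^ p with hN
  by_cases hNt : N = ⊤
  · rw [hNt, ENNReal.mul_top]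
    · exact le_top
    · rw [ne_eq, ENNReal.ofReal_eq_zero, not_le]
      positivity
  set n : ℝ := N.toReal with hn
  have hn0 : 0 ≤ n := ENNReal.toReal_nonneg
  have hNn : N = ENNReal.ofReal n := (ENNReal.ofReal_toReal hNt).symm
  classical
  set P : ℤ → ℝ := fun k => if G k =ᵐ[volume] 0 then 0 else ∏ i, a k i with hP
  set E : ℝ := (Λ * n) ^ (1 / p) / A with hE
  have hE0 : 0 ≤ E := by positivity
  have hP0 : ∀ k, 0 ≤ P k ∧ P k ≤ R0 ^ m := by
    intro k
    rw [hP]
    simp only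
    split_ifs with h
    · exact ⟨le_rfl, hRm.le⟩
    · refine ⟨Finset.prod_nonneg fun i _ => (ha k i).1.le, ?_⟩
      have : ∏ i : Fin m, a k i ≤ ∏ _i : Fin m, R0 :=
        Finset.prod_le_prod (fun i _ => (ha k i).1.le) fun i _ => (ha k i).2
      rwa [Finset.prod_const, Finset.card_univ, Fintype.card_fin] at this
  have h2k : ∀ k : ℤ, (0 : ℝ) < 2 ^ k := fun k => by positivity
  have hPE : ∀ k : ℤ, (2 : ℝ) ^ k * P k ^ (1 / p) ≤ E := by
    intro k
    rw [hP]
    simp only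
    split_ifs with h
    · rw [Real.zero_rpow (by positivity), mul_zero]
      exact hE0
    · have h1 := ((hG k).resolve_left h).2
      have hPk : 0 < ∏ i, a k i := Finset.prod_pos fun i _ => (ha k i).1
      rw [hNn, ← ENNReal.ofReal_mul hΛ.le, ENNReal.ofReal_le_ofReal_iff (by positivity)] at h1
      have h2 := Real.rpow_le_rpow (by have := h2k k; positivity) h1
        (by positivity : (0 : ℝ) ≤ 1 / p)
      rw [Real.mul_rpow (by have := h2k k; positivity) hPk.le, ← Real.rpow_mul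
        (by have := h2k k; positivity), mul_one_div_cancel hp0.ne', Real.rpow_one] at h2
      rw [hE, le_div_iff₀ hA]
      linarith
  have hser1 := hser P E hE0 hP0 hPE
  have hser2 := hser' P E hE0 hP0 hPE
  -- the integrals
  have hL1 : ∀ k, ∫⁻ y, ‖G k y‖ₑ ≤
      ENNReal.ofReal A * ENNReal.ofReal ((2 : ℝ) ^ k * P k ^ ((1 + (p - 1)) / p)) := by
    intro k
    by_cases h : G k =ᵐ[volume] 0
    · have : ∫⁻ y, ‖G k y‖ₑ = 0 := by
        rw [lintegral_congr_ae (g := fun _ => 0), lintegral_zero]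
        filter_upwards [h] with y hy
        rw [hy]
        simp
      rw [this]
      exact bot_le
    · have h1 := ((hG k).resolve_left h).1.2.1
      refine h1.trans ?_
      rw [← ENNReal.ofReal_mul hA.le]
      refine ENNReal.ofReal_le_ofReal (le_of_eq ?_)
      have h2 : P k = ∏ i, a k i := by rw [hP]; simp only; rw [if_neg h]
      have h3 : (1 + (p - 1)) / p = 1 := by
        rw [add_sub_cancel]
        exact div_self hp0.ne'
      rw [h2, h3, Real.rpow_one]
      ring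
  have hGi : ∀ k, Integrable (G k) := by
    intro k
    by_cases h : G k =ᵐ[volume] 0
    · exact (integrable_zero _ _ _).congr h.symm
    · exact ((hG k).resolve_left h).1.1
  have hsumL1 : ∑' k, ∫⁻ y, ‖G k y‖ₑ ≠ ⊤ := by
    refine ne_top_of_le_ne_top ?_ (ENNReal.tsum_le_tsum hL1)
    rw [ENNReal.tsum_mul_left]
    exact ENNReal.mul_ne_top ENNReal.ofReal_ne_top
      (ne_top_of_le_ne_top ENNReal.ofReal_ne_top hser2)
  have hft : ∀ η, ‖ftm m g η‖ₑ ≤ ∑' k, ‖ftm m (G k) η‖ₑ := by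
    intro η
    have h1 : ftm m g η = ∑' k, ftm m (G k) η := by
      unfold ftm
      rw [← integral_tsum]
      · refine integral_congr_ae (Eventually.of_forall fun y => ?_)
        simp only
        rw [tsum_mul_left, (hsum y).tsum_eq]
      · intro k
        exact (integrable_char (hGi k) η).1
      · have : ∀ k, ∫⁻ y, ‖e (-∑ i, y i * η i) * G k y‖ₑ = ∫⁻ y, ‖G k y‖ₑ := by
          intro k
          refine lintegral_congr fun y => ?_
          rw [enorm_mul]
          have : ‖e (-∑ i, y i * η i)‖ₑ = 1 := by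
            rw [← ofReal_norm, norm_e, ENNReal.ofReal_one]
          rw [this, one_mul]
        simp only [this]
        exact hsumL1
    rw [h1]
    exact enorm_tsum_le_tsum_enorm
  -- Minkowski
  set f : ℤ → (Fin m → ℝ) → ℝ≥0∞ := fun k η =>
    ENNReal.ofReal (Wp m p s2 η) ^ (1 / p) * ‖ftm m (G k) η‖ₑ with hf
  have hfm : ∀ k, Measurable (f k) := by
    intro k
    exact ((meas_Wp m p s2).ennreal_ofReal.pow_const _).mul (measurable_ftm (hGi k)).enorm
  have hfp : ∀ k η, f k η ^ p = ENNReal.ofReal (Wp m p s2 η) * ‖ftm m (G k) η‖ₑ ^ p := by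
    intro k η
    rw [hf]
    simp only
    rw [ENNReal.mul_rpow_of_nonneg _ _ hp0.le, ← ENNReal.rpow_mul, one_div_mul_cancel hp0.ne',
      ENNReal.rpow_one]
  have hx : ∀ k, (∫⁻ η, f k η ^ p) ^ (1 / p) ≤ ENNReal.ofReal (Cg ^ (1 / p) * A) *
      ENNReal.ofReal ((2 : ℝ) ^ k * P k ^ ((1 + c) / p)) := by
    intro k
    simp only [hfp]
    by_cases h : G k =ᵐ[volume] 0
    · simp only [ftm_zero h, enorm_zero, ENNReal.zero_rpow_of_pos hp0, mul_zero, lintegral_zero]
      rw [ENNReal.zero_rpow_of_pos (by positivity)]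
      exact bot_le
    · have h1 := hgain (a k) (A * 2 ^ k) (G k) (fun i => (ha k i).1) (fun i => (ha k i).2)
        (by have := h2k k; positivity) ((hG k).resolve_left h).1
      have h2 : P k = ∏ i, a k i := by rw [hP]; simp only; rw [if_neg h]
      have hPk : 0 < ∏ i, a k i := Finset.prod_pos fun i _ => (ha k i).1
      refine (ENNReal.rpow_le_rpow h1 (by positivity)).trans (le_of_eq ?_)
      have hA2 : 0 < A * 2 ^ k := mul_pos hA (h2k k)
      rw [ENNReal.ofReal_rpow_of_nonneg (by positivity) (by positivity),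
        ← ENNReal.ofReal_mul (by positivity)]
      congr 1
      rw [Real.mul_rpow hCg.le (by positivity), Real.mul_rpow (by positivity) (by positivity),
        ← Real.rpow_mul hA2.le, mul_one_div_cancel hp0.ne', Real.rpow_one, ← Real.rpow_mul hPk.le,
        h2]
      have : (1 + c) * (1 / p) = (1 + c) / p := by ring
      rw [this]
      ring
  have hmk := mink (μ := (volume : Measure (Fin m → ℝ))) (by linarith : (1 : ℝ) ≤ p) f hfm
  have htot : (∫⁻ η, (∑' k, f k η) ^ p) ^ (1 / p) ≤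
      ENNReal.ofReal (Cg ^ (1 / p) * C3 * (Λ * n) ^ (1 / p)) := by
    refine hmk.trans ((ENNReal.tsum_le_tsum hx).trans ?_)
    rw [ENNReal.tsum_mul_left]
    refine (mul_le_mul_right hser1 _).trans (le_of_eq ?_)
    rw [← ENNReal.ofReal_mul (by positivity)]
    congr 1
    rw [hE]
    field_simp
  have hfin : ∫⁻ η, (∑' k, f k η) ^ p ≤
      ENNReal.ofReal (Cg * C3 ^ p * Λ * n) := by
    have h1 := ENNReal.rpow_le_rpow htot hp0.le
    rw [← ENNReal.rpow_mul, one_div_mul_cancel hp0.ne', ENNReal.rpow_one,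
      ENNReal.ofReal_rpow_of_nonneg (by positivity) hp0.le] at h1
    refine h1.trans (ENNReal.ofReal_le_ofReal (le_of_eq ?_))
    rw [Real.mul_rpow (by positivity) (by positivity), Real.mul_rpow (by positivity) hC3.le,
      ← Real.rpow_mul hCg.le, ← Real.rpow_mul (by positivity), one_div_mul_cancel hp0.ne',
      Real.rpow_one, Real.rpow_one]
    ring
  calc ∫⁻ η : Fin m → ℝ, ENNReal.ofReal (Wp m p s2 η) * ‖ftm m g η‖ₑ ^ p
      ≤ ∫⁻ η, (∑' k, f k η) ^ p := by
        refine lintegral_mono fun η => ?_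
        rw [hf]
        simp only
        rw [ENNReal.tsum_mul_left, ENNReal.mul_rpow_of_nonneg _ _ hp0.le, ← ENNReal.rpow_mul,
          one_div_mul_cancel hp0.ne', ENNReal.rpow_one]
        exact mul_le_mul_right (ENNReal.rpow_le_rpow (hft η) hp0.le) _
    _ ≤ ENNReal.ofReal (Cg * C3 ^ p * Λ * n) := hfin
    _ = ENNReal.ofReal (Cg * C3 ^ p * Λ) * N := by
        rw [hNn, ← ENNReal.ofReal_mul (by positivity)]

end Pool.Agent.Y507.LS
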