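import Pool.Agent.Y507.LS.Atom
set_option autoImplicit false

/-! # The weighted bound for one regular function -/

open MeasureTheory Set Filter
open scoped ENNReal FourierTransform RealInnerProductSpace Topology

namespace Pool.Agent.Y507.LS

open Pool.Agent.TH280.LS

/-- the weight -/
noncomputable def Wp (m : ℕ) (p s2 : ℝ) (η : Fin m → ℝ) : ℝ :=
  (∏ i, |η i|) ^ (p - 2) * kp m s2 η ^ p

lemma kp_nonneg (m : ℕ) (s2 : ℝ) (η : Fin m → ℝ) : 0 ≤ kp m s2 η := by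
  unfold kp nr
  positivity

lemma kp_le_one (m : ℕ) {s2 : ℝ} (hs : 0 ≤ s2) (η : Fin m → ℝ) : kp m s2 η ≤ 1 := by
  unfold kp
  have : 0 ≤ nr η := Real.sqrt_nonneg _
  exact Real.rpow_le_one_of_one_le_of_nonpos (by linarith) (by linarith)

lemma prod_eta {m : ℕ} {a : Fin m → ℝ} (ha : ∀ i, 0 < a i) (η : Fin m → ℝ) :
    ∏ i, |η i| = (∏ i, a i * |η i|) / ∏ i, a i := by
  have hP : 0 < ∏ i, a i := Finset.prod_pos fun i _ => ha i
  rw [Finset.prod_mul_distrib]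
  field_simp

lemma core_low {m : ℕ} {a : Fin m → ℝ} (ha : ∀ i, 0 < a i) {p s2 M G : ℝ} (hp : 2 ≤ p)
    (hs : 0 ≤ s2) (hM : 0 ≤ M) (hG : 0 ≤ G) (hGM : G ≤ M * ∏ i, a i) (η : Fin m → ℝ)
    (hη : ∀ i, a i * |η i| ≤ 1) : Wp m p s2 η * G ^ p ≤ M ^ p * (∏ i, a i) ^ 2 := by
  have hP : 0 < ∏ i, a i := Finset.prod_pos fun i _ => ha i
  set P := ∏ i, a i with hPd
  have h1 : ∏ i, |η i| ≤ 1 / P := by
    rw [prod_eta ha]
    refine div_le_div_of_nonneg_right ?_ hP.le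
    exact Finset.prod_le_one (fun i _ => mul_nonneg (ha i).le (abs_nonneg _)) (fun i _ => hη i)
  have h0 : 0 ≤ ∏ i, |η i| := Finset.prod_nonneg fun i _ => abs_nonneg _
  have h2 : (∏ i, |η i|) ^ (p - 2) ≤ (1 / P) ^ (p - 2) :=
    Real.rpow_le_rpow h0 h1 (by linarith)
  have h3 : kp m s2 η ^ p ≤ 1 :=
    Real.rpow_le_one (kp_nonneg m s2 η) (kp_le_one m hs η) (by linarith)
  have h4 : G ^ p ≤ (M * P) ^ p := Real.rpow_le_rpow hG hGM (by linarith)
  have h5 : (1 / P) ^ (p - 2) * (M * P) ^ p = M ^ p * P ^ 2 := by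
    rw [Real.mul_rpow hM hP.le, one_div, Real.inv_rpow hP.le]
    have e1 : P ^ p = P ^ (p - 2) * P ^ 2 := by
      rw [← Real.rpow_natCast P 2, ← Real.rpow_add hP]
      congr 1
      push_cast
      ring
    rw [e1]
    have : P ^ (p - 2) ≠ 0 := (Real.rpow_pos_of_pos hP _).ne'
    field_simp
  have hk0 : 0 ≤ kp m s2 η ^ p := Real.rpow_nonneg (kp_nonneg m s2 η) _
  have hE0 : 0 ≤ (∏ i, |η i|) ^ (p - 2) := Real.rpow_nonneg h0 _
  have hG0 : 0 ≤ G ^ p := Real.rpow_nonneg hG _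
  calc Wp m p s2 η * G ^ p ≤ ((1 / P) ^ (p - 2) * 1) * (M * P) ^ p := by
        unfold Wp
        exact mul_le_mul (mul_le_mul h2 h3 hk0 (by positivity)) h4 hG0 (by positivity)
    _ = M ^ p * P ^ 2 := by rw [mul_one, h5]

lemma kp_high {m : ℕ} {s2 R0 N : ℝ} (hs : 0 ≤ s2) (hR : 0 < R0) (hN : 0 < N)
    {a : Fin m → ℝ} (ha : ∀ i, 0 < a i) (haR : ∀ i, a i ≤ R0) (η : Fin m → ℝ) (i : Fin m)
    (hi : a i * |η i| = N) : kp m s2 η ≤ (N / R0) ^ (-s2) := by
  unfold kp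
  have h1 : |η i| ≤ nr η := by
    unfold nr
    rw [← Real.sqrt_sq_eq_abs]
    exact Real.sqrt_le_sqrt (Finset.single_le_sum (f := fun j => η j ^ 2)
      (fun j _ => sq_nonneg _) (Finset.mem_univ i))
  have h2 : N / R0 ≤ |η i| := by
    rw [div_le_iff₀ hR, ← hi, mul_comm]
    exact mul_le_mul_of_nonneg_left (haR i) (abs_nonneg _)
  exact Real.rpow_le_rpow_of_nonpos (by positivity) (by linarith) (by linarith)

lemma core_high {m : ℕ} {a : Fin m → ℝ} (ha : ∀ i, 0 < a i) {p s2 M G R0 N β θ : ℝ} (hp : 2 ≤ p)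
    (hs : 0 ≤ s2) (hM : 0 ≤ M) (hR : 0 < R0) (haR : ∀ i, a i ≤ R0) (hG : 0 ≤ G)
    (η : Fin m → ℝ) (i : Fin m) (hi : a i * |η i| = N) (hN : 1 ≤ N)
    (hη : ∀ j, a j * |η j| ≤ N) (hGM : G ≤ M * (∏ i, a i) * N ^ (-β))
    (hθ : ((m : ℝ) - β) * (p - 2) - s2 * p ≤ θ) :
    Wp m p s2 η * G ^ p ≤ M ^ (p - 2) * R0 ^ (s2 * p) * (N ^ θ * G ^ 2) := by
  have hN0 : 0 < N := by linarith
  have hP : 0 < ∏ i, a i := Finset.prod_pos fun i _ => ha i
  set P := ∏ i, a i with hPd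
  have h1 : ∏ i, |η i| ≤ N ^ (m : ℝ) / P := by
    rw [prod_eta ha]
    refine div_le_div_of_nonneg_right ?_ hP.le
    calc ∏ i, a i * |η i| ≤ ∏ _i : Fin m, N :=
          Finset.prod_le_prod (fun j _ => mul_nonneg (ha j).le (abs_nonneg _)) (fun j _ => hη j)
      _ = N ^ (m : ℝ) := by
          rw [Finset.prod_const, Finset.card_univ, Fintype.card_fin, Real.rpow_natCast]
  have h0 : 0 ≤ ∏ i, |η i| := Finset.prod_nonneg fun i _ => abs_nonneg _
  have h2 : (∏ i, |η i|) ^ (p - 2) ≤ (N ^ (m : ℝ) / P) ^ (p - 2) :=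
    Real.rpow_le_rpow h0 h1 (by linarith)
  have h3 : kp m s2 η ^ p ≤ ((N / R0) ^ (-s2)) ^ p :=
    Real.rpow_le_rpow (kp_nonneg m s2 η) (kp_high hs hR hN0 ha haR η i hi) (by linarith)
  have h4 : G ^ p ≤ (M * P * N ^ (-β)) ^ (p - 2) * G ^ 2 := by
    have e1 : G ^ p = G ^ (p - 2) * G ^ 2 := by
      rw [← Real.rpow_natCast G 2, ← Real.rpow_add_of_nonneg hG (by linarith) (by norm_num)]
      congr 1
      push_cast
      ring
    rw [e1]
    exact mul_le_mul_of_nonneg_right (Real.rpow_le_rpow hG hGM (by linarith)) (by positivity)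
  have hk0 : 0 ≤ kp m s2 η ^ p := Real.rpow_nonneg (kp_nonneg m s2 η) _
  have hG0 : 0 ≤ G ^ p := Real.rpow_nonneg hG _
  have h5 : (N ^ (m : ℝ) / P) ^ (p - 2) * ((N / R0) ^ (-s2)) ^ p *
      ((M * P * N ^ (-β)) ^ (p - 2) * G ^ 2) =
      M ^ (p - 2) * R0 ^ (s2 * p) * (N ^ (((m : ℝ) - β) * (p - 2) - s2 * p) * G ^ 2) := by
    rw [Real.div_rpow (by positivity) hP.le, ← Real.rpow_mul hN0.le,
      ← Real.rpow_mul (by positivity), Real.mul_rpow (by positivity) (by positivity),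
      Real.mul_rpow hM hP.le, ← Real.rpow_mul hN0.le, Real.div_rpow hN0.le hR.le]
    have e2 : R0 ^ (-s2 * p) = (R0 ^ (s2 * p))⁻¹ := by
      rw [neg_mul, Real.rpow_neg hR.le]
    have e3 : N ^ (((m : ℝ) - β) * (p - 2) - s2 * p) =
        N ^ ((m : ℝ) * (p - 2)) * N ^ (-s2 * p) * N ^ (-β * (p - 2)) := by
      rw [← Real.rpow_add hN0, ← Real.rpow_add hN0]
      congr 1
      ring
    rw [e2, e3]
    have hPp : P ^ (p - 2) ≠ 0 := (Real.rpow_pos_of_pos hP _).ne'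
    have hRp : R0 ^ (s2 * p) ≠ 0 := (Real.rpow_pos_of_pos hR _).ne'
    field_simp
  calc Wp m p s2 η * G ^ p ≤ (N ^ (m : ℝ) / P) ^ (p - 2) * ((N / R0) ^ (-s2)) ^ p *
      ((M * P * N ^ (-β)) ^ (p - 2) * G ^ 2) := by
        unfold Wp
        exact mul_le_mul (mul_le_mul h2 h3 hk0 (by positivity)) h4 hG0 (by positivity)
    _ = M ^ (p - 2) * R0 ^ (s2 * p) * (N ^ (((m : ℝ) - β) * (p - 2) - s2 * p) * G ^ 2) := h5
    _ ≤ M ^ (p - 2) * R0 ^ (s2 * p) * (N ^ θ * G ^ 2) := by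
        refine mul_le_mul_of_nonneg_left (mul_le_mul_of_nonneg_right ?_ (by positivity))
          (by positivity)
        exact Real.rpow_le_rpow_of_exponent_le hN hθ

/-- the constant -/
noncomputable def CC (m : ℕ) (p s2 γ θ R0 : ℝ) : ℝ :=
  2 ^ m + m * (R0 ^ (s2 * p) * (2 ^ θ * (1 - 2 ^ (θ - γ))⁻¹))

lemma CC_pos (m : ℕ) {p s2 γ θ R0 : ℝ} (hR : 0 < R0) (hθγ : θ < γ) : 0 < CC m p s2 γ θ R0 := by
  unfold CC
  have hq1 : (2 : ℝ) ^ (θ - γ) < 1 := Real.rpow_lt_one_of_one_lt_of_neg (by norm_num) (by linarith)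
  have h1 : 0 < (1 - (2 : ℝ) ^ (θ - γ))⁻¹ := inv_pos.2 (by linarith)
  positivity

lemma vol_low {m : ℕ} {a : Fin m → ℝ} (ha : ∀ i, 0 < a i) :
    volume {η : Fin m → ℝ | ∀ i, a i * |η i| ≤ 1} = ENNReal.ofReal (2 ^ m / ∏ i, a i) := by
  have h1 : {η : Fin m → ℝ | ∀ i, a i * |η i| ≤ 1} =
      Icc (fun i => -(1 / a i)) (fun i => 1 / a i) := by
    ext η
    rw [mem_setOf_eq, mem_Icc, Pi.le_def, Pi.le_def, ← forall_and]
    refine forall_congr' fun i => ?_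
    have hai := ha i
    rw [mul_comm, ← le_div_iff₀ hai, abs_le]
  rw [h1, Real.volume_Icc_pi, ← ENNReal.ofReal_prod_of_nonneg
    (fun i _ => by have := ha i; have : 0 < 1 / a i := by positivity
                   linarith)]
  congr 1
  have h2 : ∀ i, 1 / a i - -(1 / a i) = 2 / a i := fun i => by ring
  simp only [h2]
  rw [Finset.prod_div_distrib, Finset.prod_const, Finset.card_univ, Fintype.card_fin]

lemma enorm_pow {z : ℂ} {p : ℝ} (hp : 0 ≤ p) : ‖z‖ₑ ^ p = ENNReal.ofReal (‖z‖ ^ p) := by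
  rw [← ofReal_norm, ENNReal.ofReal_rpow_of_nonneg (norm_nonneg _) hp]

lemma enorm_sq (z : ℂ) : ‖z‖ₑ ^ 2 = ENNReal.ofReal (‖z‖ ^ 2) := by
  rw [← ofReal_norm, ENNReal.ofReal_pow (norm_nonneg _)]

theorem atom_weight {m : ℕ} (hm : 0 < m) {β γ M p s2 θ R0 : ℝ} {a : Fin m → ℝ}
    {g : (Fin m → ℝ) → ℂ} (ha : ∀ i, 0 < a i) (haR : ∀ i, a i ≤ R0) (hR : 0 < R0)
    (hM : 0 ≤ M) (hβ : 0 ≤ β) (hθ0 : 0 ≤ θ) (hθγ : θ < γ) (hp : 2 ≤ p) (hs : 0 ≤ s2)
    (hθ : ((m : ℝ) - β) * (p - 2) - s2 * p ≤ θ) (hg : Atom m β γ a M g) :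
    ∫⁻ η : Fin m → ℝ, ENNReal.ofReal (Wp m p s2 η) * ‖ftm m g η‖ₑ ^ p ≤
      ENNReal.ofReal (CC m p s2 γ θ R0 * (M ^ p * ∏ i, a i)) := by
  have hP : 0 < ∏ i, a i := Finset.prod_pos fun i _ => ha i
  have hγ : 0 ≤ γ := by linarith
  have hq1 : (2 : ℝ) ^ (θ - γ) < 1 := Real.rpow_lt_one_of_one_lt_of_neg (by norm_num) (by linarith)
  have hq2 : 0 < (1 - (2 : ℝ) ^ (θ - γ))⁻¹ := inv_pos.2 (by linarith)
  set P := ∏ i, a i with hPd
  set Lo : Set (Fin m → ℝ) := {η | ∀ i, a i * |η i| ≤ 1} with hLo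
  set Hi : Fin m → Set (Fin m → ℝ) := fun i => {η | 1 ≤ a i * |η i|} with hHi
  have hLom : MeasurableSet Lo := by
    rw [hLo, setOf_forall]
    exact MeasurableSet.iInter fun i => measurableSet_le (meas_abs a i) measurable_const
  have hHim : ∀ i, MeasurableSet (Hi i) := fun i => measurableSet_le measurable_const (meas_abs a i)
  set K : ℝ := M ^ (p - 2) * R0 ^ (s2 * p) with hK
  have hK0 : 0 ≤ K := by positivity
  have hpt : ∀ η : Fin m → ℝ, ENNReal.ofReal (Wp m p s2 η) * ‖ftm m g η‖ₑ ^ p ≤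
      Lo.indicator (fun _ => ENNReal.ofReal (M ^ p * P ^ 2)) η +
      ∑ i, (Hi i).indicator (fun η => ENNReal.ofReal K *
        (ENNReal.ofReal ((a i * |η i|) ^ θ) * ‖ftm m g η‖ₑ ^ 2)) η := by
    intro η
    have hW0 : 0 ≤ Wp m p s2 η := by
      unfold Wp
      exact mul_nonneg (Real.rpow_nonneg (Finset.prod_nonneg fun i _ => abs_nonneg _) _)
        (Real.rpow_nonneg (kp_nonneg m s2 η) _)
    have hGM := atom_bdd ha hM hg η
    rw [enorm_pow (by linarith : (0:ℝ) ≤ p), ← ENNReal.ofReal_mul hW0]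
    by_cases hlow : ∀ i, a i * |η i| ≤ 1
    · refine le_trans ?_ le_self_add
      rw [indicator_of_mem (show η ∈ Lo from hlow)]
      exact ENNReal.ofReal_le_ofReal (core_low ha hp hs hM (norm_nonneg _) hGM η hlow)
    · push Not at hlow
      obtain ⟨i1, hi1⟩ := hlow
      obtain ⟨i, -, hi⟩ := Finset.exists_max_image (Finset.univ : Finset (Fin m))
        (fun j => a j * |η j|) ⟨⟨0, hm⟩, Finset.mem_univ _⟩
      have hN : 1 ≤ a i * |η i| := hi1.le.trans (hi i1 (Finset.mem_univ _))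
      have hηi : η i ≠ 0 := by
        intro h0
        rw [h0, abs_zero, mul_zero] at hN
        linarith
      have hdec := atom_decay ha hM hβ hg i η hηi
      refine le_trans ?_ le_add_self
      refine le_trans ?_ (Finset.single_le_sum (f := fun i => (Hi i).indicator
        (fun η => ENNReal.ofReal K *
        (ENNReal.ofReal ((a i * |η i|) ^ θ) * ‖ftm m g η‖ₑ ^ 2)) η)
        (fun _ _ => bot_le) (Finset.mem_univ i))
      rw [indicator_of_mem (show η ∈ Hi i from hN), enorm_sq, ← ENNReal.ofReal_mul (by positivity),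
        ← ENNReal.ofReal_mul hK0]
      exact ENNReal.ofReal_le_ofReal (core_high ha hp hs hM hR haR (norm_nonneg _) η i rfl hN
        (fun j => hi j (Finset.mem_univ _)) hdec hθ)
  have hmf : Measurable (ftm m g) := measurable_ftm hg.1
  have hKM : K * (M ^ 2 * P) = R0 ^ (s2 * p) * (M ^ p * P) := by
    have e1 : M ^ p = M ^ (p - 2) * M ^ 2 := by
      rw [← Real.rpow_natCast M 2, ← Real.rpow_add_of_nonneg hM (by linarith) (by norm_num)]
      congr 1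
      push_cast
      ring
    rw [hK, e1]
    ring
  calc ∫⁻ η : Fin m → ℝ, ENNReal.ofReal (Wp m p s2 η) * ‖ftm m g η‖ₑ ^ p
      ≤ ∫⁻ η : Fin m → ℝ, (Lo.indicator (fun _ => ENNReal.ofReal (M ^ p * P ^ 2)) η +
      ∑ i, (Hi i).indicator (fun η => ENNReal.ofReal K *
        (ENNReal.ofReal ((a i * |η i|) ^ θ) * ‖ftm m g η‖ₑ ^ 2)) η) := lintegral_mono hpt
    _ = (∫⁻ η : Fin m → ℝ, Lo.indicator (fun _ => ENNReal.ofReal (M ^ p * P ^ 2)) η) +
        ∑ i, ∫⁻ η : Fin m → ℝ, (Hi i).indicator (fun η => ENNReal.ofReal K *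
        (ENNReal.ofReal ((a i * |η i|) ^ θ) * ‖ftm m g η‖ₑ ^ 2)) η := by
        rw [lintegral_add_left (measurable_const.indicator hLom), lintegral_finsetSum]
        intro i _
        refine Measurable.indicator ?_ (hHim i)
        have := meas_abs a i
        fun_prop
    _ ≤ ENNReal.ofReal (2 ^ m * (M ^ p * P)) +
        ∑ _i : Fin m, ENNReal.ofReal (R0 ^ (s2 * p) * (2 ^ θ * (1 - 2 ^ (θ - γ))⁻¹) *
          (M ^ p * P)) := by
        refine add_le_add ?_ (Finset.sum_le_sum fun i _ => ?_)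
        · rw [lintegral_indicator hLom, setLIntegral_const, hLo, vol_low ha,
            ← ENNReal.ofReal_mul (by positivity)]
          refine ENNReal.ofReal_le_ofReal (le_of_eq ?_)
          rw [← hPd]
          field_simp
        · rw [lintegral_indicator (hHim i), lintegral_const_mul' _ _ ENNReal.ofReal_ne_top]
          refine (mul_le_mul_right (atom_high ha hγ hθ0 hθγ hg i) _).trans (le_of_eq ?_)
          rw [← ENNReal.ofReal_mul hK0]
          congr 1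
          rw [← hPd]
          calc K * (2 ^ θ * (1 - 2 ^ (θ - γ))⁻¹ * (M ^ 2 * P))
              = (2 ^ θ * (1 - 2 ^ (θ - γ))⁻¹) * (K * (M ^ 2 * P)) := by ring
            _ = _ := by rw [hKM]; ring
    _ = ENNReal.ofReal (CC m p s2 γ θ R0 * (M ^ p * P)) := by
        rw [Finset.sum_const, Finset.card_univ, Fintype.card_fin, nsmul_eq_mul,
          ← ENNReal.ofReal_natCast, ← ENNReal.ofReal_mul (by positivity),
          ← ENNReal.ofReal_add (by positivity) (by positivity)]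
        congr 1
        unfold CC
        ring

end Pool.Agent.Y507.LS
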