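import Pool.Agent.Y507.LS.Lay
import Pool.Agent.Y507.LS.Cont
import Pool.Agent.TH989.J1594
set_option autoImplicit false

/-! # Functions with regular superlevel sets -/

open MeasureTheory Set Filter
open scoped ENNReal FourierTransform RealInnerProductSpace Topology

namespace Pool.Agent.Y507.LS

open Pool.Agent.TH280.LS

/-- the superlevel sets are comparable to boxes and have a regular boundary -/
def Reg (m : ℕ) (β R0 Λ : ℝ) (F : (Fin m → ℝ) → ℝ) : Prop :=
  Measurable F ∧ (∀ y, 0 ≤ F y) ∧ ∀ r : ℝ, 0 < r → volume {y | r < F y} = 0 ∨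
    ∃ a : Fin m → ℝ, (∀ i, 0 < a i ∧ a i ≤ R0) ∧
      ENNReal.ofReal (∏ i, a i) ≤ ENNReal.ofReal Λ * volume {y | r < F y} ∧
      volume {y | r < F y} ≤ ENNReal.ofReal (Λ * ∏ i, a i) ∧
      ∀ (i : Fin m) (h : ℝ), volume {y | ¬(r < F (y + Pi.single i h) ↔ r < F y)} ≤
        ENNReal.ofReal (Λ * (∏ i, a i) * (|h| / a i) ^ β)

/-- the indicator function of a superlevel set -/
noncomputable def ind {m : ℕ} (F : (Fin m → ℝ) → ℝ) (r : ℝ) (y : Fin m → ℝ) : ℂ :=
  {y | r < F y}.indicator (fun _ => (1 : ℂ)) y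

lemma ind_meas2 {m : ℕ} {F : (Fin m → ℝ) → ℝ} (hF : Measurable F) :
    Measurable (fun q : ℝ × (Fin m → ℝ) => ind F q.1 q.2) := by
  have h1 : (fun q : ℝ × (Fin m → ℝ) => ind F q.1 q.2) =
      {q : ℝ × (Fin m → ℝ) | q.1 < F q.2}.indicator (fun _ => (1 : ℂ)) := by
    funext q
    unfold ind
    by_cases h : q.1 < F q.2
    · rw [indicator_of_mem (show q.2 ∈ {y | q.1 < F y} from h),
        indicator_of_mem (show q ∈ {q : ℝ × (Fin m → ℝ) | q.1 < F q.2} from h)]
    · rw [indicator_of_notMem (show q.2 ∉ {y | q.1 < F y} from h),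
        indicator_of_notMem (show q ∉ {q : ℝ × (Fin m → ℝ) | q.1 < F q.2} from h)]
  rw [h1]
  exact measurable_const.indicator (measurableSet_lt measurable_fst (hF.comp measurable_snd))

lemma ind_enorm {m : ℕ} (F : (Fin m → ℝ) → ℝ) (r : ℝ) (y : Fin m → ℝ) :
    ‖ind F r y‖ₑ = {y | r < F y}.indicator (fun _ => (1 : ℝ≥0∞)) y := by
  unfold ind
  by_cases h : r < F y
  · rw [indicator_of_mem (show y ∈ {y | r < F y} from h),
      indicator_of_mem (show y ∈ {y | r < F y} from h), enorm_one]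
  · rw [indicator_of_notMem (show y ∉ {y | r < F y} from h),
      indicator_of_notMem (show y ∉ {y | r < F y} from h), enorm_zero]

lemma ind_L1 {m : ℕ} {F : (Fin m → ℝ) → ℝ} (hF : Measurable F) (r : ℝ) :
    ∫⁻ y, ‖ind F r y‖ₑ = volume {y | r < F y} := by
  simp only [ind_enorm]
  rw [lintegral_indicator (measurableSet_lt measurable_const hF), setLIntegral_one]

lemma ind_sub {m : ℕ} {F : (Fin m → ℝ) → ℝ} (i : Fin m) (h r : ℝ)
    (y : Fin m → ℝ) : ‖ind F r (y + Pi.single i h) - ind F r y‖ₑ =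
      {y | ¬(r < F (y + Pi.single i h) ↔ r < F y)}.indicator (fun _ => (1 : ℝ≥0∞)) y := by
  unfold ind
  by_cases h1 : r < F (y + Pi.single i h) <;> by_cases h2 : r < F y
  · rw [indicator_of_mem (show y + Pi.single i h ∈ {y | r < F y} from h1),
      indicator_of_mem (show y ∈ {y | r < F y} from h2), indicator_of_notMem (by simp [h1, h2])]
    simp
  · rw [indicator_of_mem (show y + Pi.single i h ∈ {y | r < F y} from h1),
      indicator_of_notMem (show y ∉ {y | r < F y} from h2), indicator_of_mem (by simp [h1, h2])]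
    simp
  · rw [indicator_of_notMem (show y + Pi.single i h ∉ {y | r < F y} from h1),
      indicator_of_mem (show y ∈ {y | r < F y} from h2), indicator_of_mem (by simp [h1, h2])]
    simp
  · rw [indicator_of_notMem (show y + Pi.single i h ∉ {y | r < F y} from h1),
      indicator_of_notMem (show y ∉ {y | r < F y} from h2),
      indicator_of_notMem (by simp [h1, h2])]
    simp

lemma meas_diff {m : ℕ} {F : (Fin m → ℝ) → ℝ} (hF : Measurable F) (i : Fin m) (h r : ℝ) :
    MeasurableSet {y | ¬(r < F (y + Pi.single i h) ↔ r < F y)} := by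
  have h1 : MeasurableSet {y : Fin m → ℝ | r < F (y + Pi.single i h)} :=
    measurableSet_lt measurable_const
      (hF.comp (by fun_prop : Measurable fun y : Fin m → ℝ => y + Pi.single i h))
  have h2 : MeasurableSet {y | r < F y} := measurableSet_lt measurable_const hF
  exact (h1.iff h2).compl

lemma ind_atom {m : ℕ} {β Λ : ℝ} {a : Fin m → ℝ} (ha : ∀ i, 0 < a i)
    {F : (Fin m → ℝ) → ℝ} (hF : Measurable F) {r : ℝ}
    (h1 : volume {y | r < F y} ≤ ENNReal.ofReal (Λ * ∏ i, a i))
    (h2 : ∀ (i : Fin m) (h : ℝ), volume {y | ¬(r < F (y + Pi.single i h) ↔ r < F y)} ≤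
        ENNReal.ofReal (Λ * (∏ i, a i) * (|h| / a i) ^ β)) :
    Atom m β β a (max 1 Λ) (ind F r) := by
  have hM : 1 ≤ max 1 Λ := le_max_left _ _
  have hMΛ : Λ ≤ max 1 Λ := le_max_right _ _
  set M := max 1 Λ with hMd
  have hP : 0 < ∏ i, a i := Finset.prod_pos fun i _ => ha i
  have hm : Measurable (ind F r) :=
    measurable_const.indicator (measurableSet_lt measurable_const hF)
  refine ⟨⟨hm.aestronglyMeasurable, ?_⟩, ?_, ?_⟩
  · change ∫⁻ y, ‖ind F r y‖ₑ < ⊤
    rw [ind_L1 hF]
    exact h1.trans_lt ENNReal.ofReal_lt_top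
  · rw [ind_L1 hF]
    exact h1.trans (ENNReal.ofReal_le_ofReal (mul_le_mul_of_nonneg_right hMΛ hP.le))
  · intro i h
    have hq : 0 ≤ (|h| / a i) ^ β := Real.rpow_nonneg (div_nonneg (abs_nonneg _) (ha i).le) _
    have h3 : ∫⁻ y, {y | ¬(r < F (y + Pi.single i h) ↔ r < F y)}.indicator
        (fun _ => (1 : ℝ≥0∞)) y ≤ ENNReal.ofReal (Λ * (∏ i, a i) * (|h| / a i) ^ β) := by
      rw [lintegral_indicator (meas_diff hF i h r), setLIntegral_one]
      exact h2 i h
    constructor
    · simp only [ind_sub]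
      refine h3.trans (ENNReal.ofReal_le_ofReal ?_)
      exact mul_le_mul_of_nonneg_right (mul_le_mul_of_nonneg_right hMΛ hP.le) hq
    · have h4 : ∀ y, ‖ind F r (y + Pi.single i h) - ind F r y‖ₑ ^ 2 =
          {y | ¬(r < F (y + Pi.single i h) ↔ r < F y)}.indicator (fun _ => (1 : ℝ≥0∞)) y := by
        intro y
        rw [ind_sub]
        by_cases hy : y ∈ {y | ¬(r < F (y + Pi.single i h) ↔ r < F y)}
        · rw [indicator_of_mem hy, one_pow]
        · rw [indicator_of_notMem hy]
          simp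
      simp only [h4]
      refine h3.trans (ENNReal.ofReal_le_ofReal ?_)
      refine mul_le_mul_of_nonneg_right (mul_le_mul_of_nonneg_right ?_ hP.le) hq
      nlinarith

/-- the layer cake formula -/
lemma cake {u : ℝ} (hu : 0 ≤ u) (w : ℂ) :
    ∫ r in Ioi (0 : ℝ), w * (if r < u then (1 : ℂ) else 0) = w * (u : ℂ) := by
  rw [integral_const_mul]
  congr 1
  have h1 : ∀ r : ℝ, (if r < u then (1 : ℂ) else 0) = (Iio u).indicator (fun _ => (1 : ℂ)) r := by
    intro r
    by_cases h : r < u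
    · rw [if_pos h, indicator_of_mem (show r ∈ Iio u from h)]
    · rw [if_neg h, indicator_of_notMem (show r ∉ Iio u from h)]
  simp only [h1]
  rw [integral_indicator measurableSet_Iio, Measure.restrict_restrict measurableSet_Iio,
    setIntegral_const]
  have h2 : Iio u ∩ Ioi 0 = Ioo 0 u := by
    ext r
    simp [and_comm]
  rw [h2, measureReal_def, Real.volume_Ioo, sub_zero, ENNReal.toReal_ofReal hu]
  simp

theorem reg_slice {m : ℕ} (hm : 0 < m) {β p s2 R0 Λ : ℝ} (hR : 0 < R0)
    (hΛ : 0 < Λ) (hβ : 0 < β) (hp : 2 ≤ p) (hs : 0 < s2)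
    (hcond : ((m : ℝ) - β) * (p - 2) - β < s2 * p) :
    ∃ C2 : ℝ, 0 < C2 ∧ ∀ F : (Fin m → ℝ) → ℝ, Reg m β R0 Λ F → Integrable F →
      ∫⁻ η : Fin m → ℝ, ENNReal.ofReal (Wp m p s2 η) * ‖ftm m (fun y => (F y : ℂ)) η‖ₑ ^ p ≤
        ENNReal.ofReal C2 * ∫⁻ y, ‖F y‖ₑ ^ p := by
  have hp0 : 0 < p := by linarith
  obtain ⟨c, Cg, hc, hCg, hgain⟩ := atom_gain hm hR hβ.le hβ hp hs hcond
  have hM : (1 : ℝ) ≤ max 1 Λ := le_max_left _ _
  set M : ℝ := max 1 Λ with hMd
  have hM0 : 0 < M := by linarith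
  set R : ℝ := Λ ^ 2 * R0 ^ m with hRd
  have hR1 : 0 < R := by positivity
  set K : ℝ := Cg ^ (1 / p) * M with hK
  have hK0 : 0 < K := by positivity
  set C5 : ℝ := R ^ (c / p) * (1 + 1 / c) with hC5
  have hC50 : 0 < C5 := by positivity
  refine ⟨(K * C5) ^ p * Λ, by positivity, ?_⟩
  rintro F ⟨hFm, hF0, hFr⟩ hFi
  set N : ℝ≥0∞ := ∫⁻ y, ‖F y‖ₑ ^ p with hN
  by_cases hNt : N = ⊤
  · rw [hNt, ENNReal.mul_top]
    · exact le_top
    · rw [ne_eq, ENNReal.ofReal_eq_zero, not_le]
      positivity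
  set n : ℝ := N.toReal with hn
  have hn0 : 0 ≤ n := ENNReal.toReal_nonneg
  have hNn : N = ENNReal.ofReal n := (ENNReal.ofReal_toReal hNt).symm
  have hSm : ∀ r : ℝ, MeasurableSet {y | r < F y} := fun r => measurableSet_lt measurable_const hFm
  set V : ℝ → ℝ := fun r => (volume {y | r < F y}).toReal with hV
  -- the volume of the superlevel sets
  have hvol : ∀ r, 0 < r → volume {y | r < F y} ≤ ENNReal.ofReal (Λ * R0 ^ m) := by
    intro r hr
    rcases hFr r hr with h | ⟨a, ha, -, h2, -⟩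
    · rw [h]
      exact bot_le
    · refine h2.trans (ENNReal.ofReal_le_ofReal (mul_le_mul_of_nonneg_left ?_ hΛ.le))
      have : ∏ i : Fin m, a i ≤ ∏ _i : Fin m, R0 :=
        Finset.prod_le_prod (fun i _ => (ha i).1.le) fun i _ => (ha i).2
      rwa [Finset.prod_const, Finset.card_univ, Fintype.card_fin] at this
  have hvt : ∀ r, 0 < r → volume {y | r < F y} ≠ ⊤ := fun r hr =>
    ne_top_of_le_ne_top ENNReal.ofReal_ne_top (hvol r hr)
  have hV0 : ∀ r, 0 ≤ V r := fun r => ENNReal.toReal_nonneg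
  have hVR : ∀ r, 0 < r → Λ * V r ≤ R := by
    intro r hr
    have h1 : V r ≤ Λ * R0 ^ m := ENNReal.toReal_le_of_le_ofReal (by positivity) (hvol r hr)
    calc Λ * V r ≤ Λ * (Λ * R0 ^ m) := mul_le_mul_of_nonneg_left h1 hΛ.le
      _ = R := by rw [hRd]; ring
  set E : ℝ := (Λ * n) ^ (1 / p) with hE
  have hE0 : 0 ≤ E := by positivity
  have hVE : ∀ r, 0 < r → r * (Λ * V r) ^ (1 / p) ≤ E := by
    intro r hr
    have hcheb : ENNReal.ofReal (r ^ p) * volume {y | r < F y} ≤ N := by
      rw [← setLIntegral_const]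
      refine (setLIntegral_mono' (hSm r) fun y hy => ?_).trans (setLIntegral_le_lintegral _ _)
      rw [Real.enorm_of_nonneg (hF0 y), ENNReal.ofReal_rpow_of_nonneg (hF0 y) hp0.le]
      exact ENNReal.ofReal_le_ofReal (Real.rpow_le_rpow hr.le (le_of_lt hy) hp0.le)
    have h1 : r ^ p * V r ≤ n := by
      rw [hNn, ← ENNReal.ofReal_toReal (hvt r hr), ← ENNReal.ofReal_mul (by positivity),
        ENNReal.ofReal_le_ofReal_iff hn0] at hcheb
      exact hcheb
    have h2 : r ^ p * (Λ * V r) ≤ Λ * n := by nlinarith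
    have h3 := Real.rpow_le_rpow (by have := hV0 r; positivity) h2 (by positivity : 0 ≤ 1 / p)
    rw [Real.mul_rpow (by positivity) (by have := hV0 r; positivity), ← Real.rpow_mul hr.le,
      mul_one_div_cancel hp0.ne', Real.rpow_one] at h3
    exact h3
  -- one superlevel set
  have hone : ∀ r, 0 < r → (∫⁻ η : Fin m → ℝ, ENNReal.ofReal (Wp m p s2 η) *
      ‖ftm m (ind F r) η‖ₑ ^ p) ^ (1 / p) ≤
      ENNReal.ofReal K * ENNReal.ofReal ((Λ * V r) ^ ((1 + c) / p)) := by
    intro r hr
    rcases hFr r hr with h | ⟨a, ha, h1, h2, h3⟩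
    · have h0 : ind F r =ᵐ[volume] 0 := by
        have h4 : ∀ᵐ y, ¬ r < F y := by
          rw [ae_iff]
          simpa using h
        filter_upwards [h4] with y hy
        unfold ind
        rw [indicator_of_notMem (show y ∉ {y | r < F y} from hy)]
        rfl
      simp only [ftm_zero h0, enorm_zero, ENNReal.zero_rpow_of_pos hp0, mul_zero, lintegral_zero]
      rw [ENNReal.zero_rpow_of_pos (by positivity)]
      exact bot_le
    · have hat := ind_atom (fun i => (ha i).1) hFm h2 h3
      have hPk : 0 < ∏ i, a i := Finset.prod_pos fun i _ => (ha i).1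
      have h4 := hgain a M (ind F r) (fun i => (ha i).1) (fun i => (ha i).2) hM0.le hat
      have h5 : ∏ i, a i ≤ Λ * V r := by
        rw [← ENNReal.ofReal_toReal (hvt r hr), ← ENNReal.ofReal_mul hΛ.le,
          ENNReal.ofReal_le_ofReal_iff (by have := hV0 r; positivity)] at h1
        exact h1
      have h6 : (∏ i, a i) ^ (1 + c) ≤ (Λ * V r) ^ (1 + c) :=
        Real.rpow_le_rpow hPk.le h5 (by linarith)
      have hVr := hV0 r
      refine (ENNReal.rpow_le_rpow (h4.trans (ENNReal.ofReal_le_ofReal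
        (mul_le_mul_of_nonneg_left (mul_le_mul_of_nonneg_left h6 (by positivity)) hCg.le)))
        (by positivity)).trans (le_of_eq ?_)
      rw [ENNReal.ofReal_rpow_of_nonneg (by positivity) (by positivity),
        ← ENNReal.ofReal_mul (by positivity)]
      congr 1
      rw [Real.mul_rpow hCg.le (by positivity), Real.mul_rpow (by positivity) (by positivity),
        ← Real.rpow_mul hM0.le, mul_one_div_cancel hp0.ne', Real.rpow_one,
        ← Real.rpow_mul (by positivity)]
      have : (1 + c) * (1 / p) = (1 + c) / p := by ring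
      rw [this, hK]
      ring
  -- the Fourier transform
  have hjm : Measurable (fun q : (Fin m → ℝ) × ℝ => ftm m (ind F q.2) q.1) := by
    have h2 : StronglyMeasurable (fun q : ((Fin m → ℝ) × ℝ) × (Fin m → ℝ) =>
        e (-(∑ i, q.2 i * q.1.1 i)) * ind F q.1.2 q.2) := by
      apply Measurable.stronglyMeasurable
      refine Measurable.mul (measurable_e.comp (by fun_prop)) ?_
      exact (ind_meas2 hFm).comp ((measurable_snd.comp measurable_fst).prodMk measurable_snd)
    exact (h2.integral_prod_right (ν := volume)).measurable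
  have hft : ∀ η, ‖ftm m (fun y => (F y : ℂ)) η‖ₑ ≤
      ∫⁻ r in Ioi (0 : ℝ), ‖ftm m (ind F r) η‖ₑ := by
    intro η
    have hprodi : Integrable (fun q : (Fin m → ℝ) × ℝ =>
        e (-(∑ i, q.1 i * η i)) * ind F q.2 q.1) (volume.prod (volume.restrict (Ioi 0))) := by
      refine ⟨?_, ?_⟩
      · refine (Measurable.mul (measurable_e.comp (by fun_prop)) ?_).aestronglyMeasurable
        exact (ind_meas2 hFm).comp (measurable_snd.prodMk measurable_fst)
      · have h1 : ∀ q : (Fin m → ℝ) × ℝ, ‖e (-(∑ i, q.1 i * η i)) * ind F q.2 q.1‖ₑ =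
            ‖ind F q.2 q.1‖ₑ := by
          intro q
          rw [enorm_mul]
          have : ‖e (-∑ i, q.1 i * η i)‖ₑ = 1 := by
            rw [← ofReal_norm, norm_e, ENNReal.ofReal_one]
          rw [this, one_mul]
        unfold HasFiniteIntegral
        simp only [h1]
        have h0 : Measurable (fun q : (Fin m → ℝ) × ℝ => ‖ind F q.2 q.1‖ₑ) :=
          ((ind_meas2 hFm).comp (measurable_snd.prodMk measurable_fst)).enorm
        rw [lintegral_prod _ h0.aemeasurable]
        refine lt_of_le_of_lt (lintegral_mono fun y => ?_) hFi.2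
        have h2 : ∀ r : ℝ, ‖ind F r y‖ₑ = (Iio (F y)).indicator (fun _ => (1 : ℝ≥0∞)) r := by
          intro r
          rw [ind_enorm]
          by_cases h : r < F y
          · rw [indicator_of_mem (show y ∈ {y | r < F y} from h),
              indicator_of_mem (show r ∈ Iio (F y) from h)]
          · rw [indicator_of_notMem (show y ∉ {y | r < F y} from h),
              indicator_of_notMem (show r ∉ Iio (F y) from h)]
        simp only [h2]
        rw [lintegral_indicator measurableSet_Iio, setLIntegral_one,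
          Measure.restrict_apply measurableSet_Iio]
        have h3 : Iio (F y) ∩ Ioi 0 = Ioo 0 (F y) := by
          ext r
          simp [and_comm]
        rw [h3, Real.volume_Ioo, sub_zero, Real.enorm_of_nonneg (hF0 y)]
    have h1 : ftm m (fun y => (F y : ℂ)) η = ∫ r in Ioi (0 : ℝ), ftm m (ind F r) η := by
      unfold ftm
      rw [← integral_integral_swap hprodi]
      refine integral_congr_ae (Eventually.of_forall fun y => ?_)
      simp only
      rw [← cake (hF0 y)]
      refine setIntegral_congr_fun measurableSet_Ioi fun r _ => ?_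
      simp only [ind]
      congr 1
    rw [h1]
    exact enorm_integral_le_lintegral_enorm _
  -- Minkowski
  set f : (Fin m → ℝ) → ℝ → ℝ≥0∞ := fun η r =>
    ENNReal.ofReal (Wp m p s2 η) ^ (1 / p) * ‖ftm m (ind F r) η‖ₑ with hf
  have hfm : Measurable (Function.uncurry f) :=
    (((meas_Wp m p s2).comp measurable_fst).ennreal_ofReal.pow_const _).mul hjm.enorm
  have hfp : ∀ η r, f η r ^ p = ENNReal.ofReal (Wp m p s2 η) * ‖ftm m (ind F r) η‖ₑ ^ p := by
    intro η r
    rw [hf]
    simp only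
    rw [ENNReal.mul_rpow_of_nonneg _ _ hp0.le, ← ENNReal.rpow_mul, one_div_mul_cancel hp0.ne',
      ENNReal.rpow_one]
  have hmk := Pool.Agent.TH989.FN.minkowski (μ := (volume : Measure (Fin m → ℝ)))
    (ν := volume.restrict (Ioi (0 : ℝ))) p (by linarith) f hfm
  have htot : (∫⁻ η, (∫⁻ r in Ioi (0 : ℝ), f η r) ^ p) ^ (1 / p) ≤
      ENNReal.ofReal (K * (C5 * E)) := by
    refine hmk.trans ?_
    calc ∫⁻ r in Ioi (0 : ℝ), (∫⁻ η, f η r ^ p) ^ (1 / p)
        ≤ ∫⁻ r in Ioi (0 : ℝ), ENNReal.ofReal K * ENNReal.ofReal ((Λ * V r) ^ ((1 + c) / p)) := by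
          refine setLIntegral_mono' measurableSet_Ioi fun r hr => ?_
          simp only [hfp]
          exact hone r hr
      _ = ENNReal.ofReal K * ∫⁻ r in Ioi (0 : ℝ), ENNReal.ofReal ((Λ * V r) ^ ((1 + c) / p)) :=
          lintegral_const_mul' _ _ ENNReal.ofReal_ne_top
      _ ≤ ENNReal.ofReal K * ENNReal.ofReal (C5 * E) := by
          refine mul_le_mul_right ?_ _
          exact cont_int (by linarith) hc hR1 hE0
            (fun r hr => ⟨by have := hV0 r; positivity, hVR r hr⟩) hVE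
      _ = _ := by rw [← ENNReal.ofReal_mul hK0.le]
  have hfin : ∫⁻ η, (∫⁻ r in Ioi (0 : ℝ), f η r) ^ p ≤
      ENNReal.ofReal ((K * C5) ^ p * Λ * n) := by
    have h1 := ENNReal.rpow_le_rpow htot hp0.le
    rw [← ENNReal.rpow_mul, one_div_mul_cancel hp0.ne', ENNReal.rpow_one,
      ENNReal.ofReal_rpow_of_nonneg (by positivity) hp0.le] at h1
    refine h1.trans (ENNReal.ofReal_le_ofReal (le_of_eq ?_))
    rw [← mul_assoc, Real.mul_rpow (by positivity) hE0, hE, ← Real.rpow_mul (by positivity),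
      one_div_mul_cancel hp0.ne', Real.rpow_one]
    ring
  calc ∫⁻ η : Fin m → ℝ, ENNReal.ofReal (Wp m p s2 η) * ‖ftm m (fun y => (F y : ℂ)) η‖ₑ ^ p
      ≤ ∫⁻ η, (∫⁻ r in Ioi (0 : ℝ), f η r) ^ p := by
        refine lintegral_mono fun η => ?_
        rw [hf]
        simp only
        rw [lintegral_const_mul' _ _ (ENNReal.rpow_ne_top_of_nonneg (by positivity)
          ENNReal.ofReal_ne_top), ENNReal.mul_rpow_of_nonneg _ _ hp0.le, ← ENNReal.rpow_mul,
          one_div_mul_cancel hp0.ne', ENNReal.rpow_one]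
        exact mul_le_mul_right (ENNReal.rpow_le_rpow (hft η) hp0.le) _
    _ ≤ ENNReal.ofReal ((K * C5) ^ p * Λ * n) := hfin
    _ = ENNReal.ofReal ((K * C5) ^ p * Λ) * N := by
        rw [hNn, ← ENNReal.ofReal_mul (by positivity)]

end Pool.Agent.Y507.LS
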